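import Pool.Agent.LargeDist.Sharp.Wigert

set_option autoImplicit false

/-! # Uniform bounds for the number of divisors

Proof of `divisors_uniform`. Let `ε' > 0` with `a (log 2 + ε') < a log 2 + ε`, and `N₀ ≥ 16` from
`wigert ε'` (enlarge it). Put `X = c (k+1)^a`, `N ≤ X`.
If `N < N₀`: `d(N) ≤ N ≤ N₀`, and the right side tends to infinity with `k`. If `N ≥ N₀`: the function
`t ↦ t / log t` is increasing for `t ≥ e` (apply it to `t = log N ≤ log X`), so
`d(N) ≤ exp ((log 2 + ε') log X / log log X)`, and `log X = a log (k+1) + log c`,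
`log X / log log X ~ a log k / log log k` (`log X ≤ (a + δ) log k` for large `k`, and
`log log X ≥ log log k` since `X ≥ k`). So for large `k` this is at most the right side.
Proof of `divisors_half`. Use `divisors_uniform` with `ε = 1`, `a = 4`, `c = 64` at `k = m`: for large
`m`, `d(N) ≤ exp ((4 log 2 + 1) log m / log log m) ≤ m ^ (1/2) ≤ m / 4`; take `T' = ⌊m / 4⌋`. -/

namespace Pool.Agent.LargeDist.Sharp

open Filter Real

private theorem tendsto_logCast : Tendsto (fun k : ℕ => Real.log (k : ℝ)) atTop atTop :=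
  Real.tendsto_log_atTop.comp tendsto_natCast_atTop_atTop

private theorem tendsto_loglogCast :
    Tendsto (fun k : ℕ => Real.log (Real.log (k : ℝ))) atTop atTop :=
  Real.tendsto_log_atTop.comp tendsto_logCast

private theorem tendsto_div_log : Tendsto (fun x : ℝ => x / Real.log x) atTop atTop := by
  have h1 : Tendsto (fun x : ℝ => Real.sqrt x / 2) atTop atTop :=
    (Real.tendsto_sqrt_atTop).atTop_div_const (by norm_num)
  refine tendsto_atTop_mono' atTop ?_ h1
  filter_upwards [eventually_gt_atTop (2 : ℝ)] with x hx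
  have hx0 : (0 : ℝ) < x := by linarith
  have hl : 0 < Real.log x := Real.log_pos (by linarith)
  rw [le_div_iff₀ hl]
  have hs : 0 < Real.sqrt x := Real.sqrt_pos.2 hx0
  have h2 : Real.log x ≤ 2 * Real.sqrt x := by
    have h3 := Real.log_le_sub_one_of_pos hs
    rw [Real.log_sqrt hx0.le] at h3
    linarith
  calc Real.sqrt x / 2 * Real.log x ≤ Real.sqrt x / 2 * (2 * Real.sqrt x) := by
        apply mul_le_mul_of_nonneg_left h2; positivity
    _ = Real.sqrt x * Real.sqrt x := by ring
    _ = x := Real.mul_self_sqrt hx0.le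

private theorem div_log_mono {s t : ℝ} (hs : Real.exp 1 ≤ s) (hst : s ≤ t) :
    s / Real.log s ≤ t / Real.log t := by
  have he : (1 : ℝ) < Real.exp 1 := by
    have := Real.add_one_lt_exp (x := 1) (by norm_num)
    linarith
  have hs1 : 1 < s := lt_of_lt_of_le he hs
  have ht1 : 1 < t := lt_of_lt_of_le hs1 hst
  have hls : 0 < Real.log s := Real.log_pos hs1
  have hlt : 0 < Real.log t := Real.log_pos ht1
  have h := Real.log_div_self_antitoneOn (show s ∈ {x : ℝ | Real.exp 1 ≤ x} from hs)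
    (show t ∈ {x : ℝ | Real.exp 1 ≤ x} from hs.trans hst) hst
  simp only at h
  rw [div_le_div_iff₀ (by linarith) (by linarith)] at h
  rw [div_le_div_iff₀ hls hlt]
  linarith

theorem divisors_uniform {ε : ℝ} (hε : 0 < ε) (a c : ℕ) (ha : 1 ≤ a) (hc : 1 ≤ c) :
    ∃ k₀ : ℕ, ∀ k : ℕ, k₀ ≤ k → ∀ N : ℕ, 0 < N → N ≤ c * (k + 1) ^ a →
      (N.divisors.card : ℝ) ≤
        Real.exp ((a * Real.log 2 + ε) * Real.log k / Real.log (Real.log k)) := by
  have ha' : (0 : ℝ) < a := by exact_mod_cast ha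
  have hl2 : 0 < Real.log 2 := Real.log_pos (by norm_num)
  set ε' : ℝ := ε / (2 * a) with hε'
  have hε'0 : 0 < ε' := by positivity
  set δ : ℝ := ε / (2 * (Real.log 2 + ε')) with hδ
  have hδ0 : 0 < δ := by positivity
  have hkey : (Real.log 2 + ε') * (a + δ) = a * Real.log 2 + ε := by
    have h1 : (Real.log 2 + ε') * δ = ε / 2 := by
      rw [hδ]; field_simp
    have h2 : ε' * a = ε / 2 := by
      rw [hε']; field_simp
    calc (Real.log 2 + ε') * (a + δ) = a * Real.log 2 + ε' * a + (Real.log 2 + ε') * δ := by ring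
      _ = a * Real.log 2 + ε := by rw [h1, h2]; ring
  obtain ⟨N₁, hN₁⟩ := wigert hε'0
  set N₀ : ℕ := max N₁ 16 with hN₀
  have hA : (0 : ℝ) < a * Real.log 2 + ε := by positivity
  -- eventual facts
  have e1 : ∀ᶠ k : ℕ in atTop, (N₀ : ℝ) ≤
      Real.exp ((a * Real.log 2 + ε) * Real.log k / Real.log (Real.log k)) := by
    have h1 : Tendsto (fun k : ℕ => (a * Real.log 2 + ε) *
        (Real.log (k : ℝ) / Real.log (Real.log (k : ℝ)))) atTop atTop :=
      (tendsto_div_log.comp tendsto_logCast).const_mul_atTop hA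
    have h2 := (Real.tendsto_exp_atTop.comp h1).eventually_ge_atTop (N₀ : ℝ)
    filter_upwards [h2] with k hk
    simpa [mul_div_assoc] using hk
  have e2 : ∀ᶠ k : ℕ in atTop, a * Real.log 2 + Real.log c ≤ δ * Real.log k :=
    (tendsto_logCast.const_mul_atTop hδ0).eventually_ge_atTop _
  have e3 : ∀ᶠ k : ℕ in atTop, (1 : ℝ) ≤ Real.log (Real.log (k : ℝ)) :=
    tendsto_loglogCast.eventually_ge_atTop 1
  have e4 : ∀ᶠ k : ℕ in atTop, (3 : ℝ) ≤ Real.log (k : ℝ) :=
    tendsto_logCast.eventually_ge_atTop 3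
  obtain ⟨k₀, hk₀⟩ := eventually_atTop.1 ((e1.and e2).and ((e3.and e4).and (eventually_ge_atTop 1)))
  refine ⟨k₀, fun k hk N hN hNX => ?_⟩
  obtain ⟨⟨h1, h2⟩, ⟨h3, h4⟩, h5⟩ := hk₀ k hk
  rcases lt_or_ge N N₀ with hlt | hge
  · refine le_trans ?_ h1
    have h6 : N.divisors.card ≤ N := Nat.card_divisors_le_self N
    exact_mod_cast h6.trans hlt.le
  · have hNN₁ : N₁ ≤ N := (le_max_left _ _).trans hge
    have hN16 : 16 ≤ N := (le_max_right _ _).trans hge
    refine (hN₁ N hNN₁).trans (Real.exp_le_exp.2 ?_)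
    have hk1 : (1 : ℝ) ≤ (k : ℝ) := by exact_mod_cast h5
    have hk0 : (0 : ℝ) < (k : ℝ) := by linarith
    have hc' : (1 : ℝ) ≤ (c : ℝ) := by exact_mod_cast hc
    have hN16' : (16 : ℝ) ≤ (N : ℝ) := by exact_mod_cast hN16
    have hNX' : (N : ℝ) ≤ (c : ℝ) * ((k : ℝ) + 1) ^ a := by exact_mod_cast hNX
    have hX0 : (0 : ℝ) < (c : ℝ) * ((k : ℝ) + 1) ^ a := by positivity
    set X : ℝ := (c : ℝ) * ((k : ℝ) + 1) ^ a with hX
    have hlogN : Real.exp 1 ≤ Real.log N := by
      have h7 : Real.log 16 ≤ Real.log N := Real.log_le_log (by norm_num) hN16'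
      have h8 : Real.log 16 = 4 * Real.log 2 := by
        rw [show (16 : ℝ) = 2 ^ 4 by norm_num, Real.log_pow]; norm_num
      have h9 := Real.log_two_gt_d9
      have h10 := Real.exp_one_lt_d9
      linarith
    have hlogX : Real.log N ≤ Real.log X := Real.log_le_log (by linarith) hNX'
    have hstep1 := div_log_mono hlogN hlogX
    have hkX : (k : ℝ) ≤ X := by
      have h7 : (k : ℝ) + 1 ≤ ((k : ℝ) + 1) ^ a := by
        have := pow_le_pow_right₀ (show (1 : ℝ) ≤ (k : ℝ) + 1 by linarith) ha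
        simpa using this
      have h8 : ((k : ℝ) + 1) ^ a ≤ X := by
        rw [hX]
        exact le_mul_of_one_le_left (by positivity) hc'
      linarith
    have hlogkX : Real.log k ≤ Real.log X := Real.log_le_log hk0 hkX
    have hllk : Real.log (Real.log k) ≤ Real.log (Real.log X) :=
      Real.log_le_log (by linarith) hlogkX
    have hlXle : Real.log X ≤ (a + δ) * Real.log k := by
      have h7 : Real.log X = Real.log c + a * Real.log ((k : ℝ) + 1) := by
        rw [hX, Real.log_mul (by positivity) (by positivity), Real.log_pow]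
      have h8 : Real.log ((k : ℝ) + 1) ≤ Real.log 2 + Real.log k := by
        rw [← Real.log_mul (by norm_num) (by positivity)]
        exact Real.log_le_log (by positivity) (by linarith)
      have h9 : (a : ℝ) * Real.log ((k : ℝ) + 1) ≤ a * (Real.log 2 + Real.log k) :=
        mul_le_mul_of_nonneg_left h8 ha'.le
      rw [h7]
      nlinarith
    have hstep2 : Real.log X / Real.log (Real.log X) ≤
        ((a + δ) * Real.log k) / Real.log (Real.log k) := by
      apply div_le_div₀ _ hlXle (by linarith) hllk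
      have : (0 : ℝ) ≤ Real.log k := by linarith
      positivity
    calc (Real.log 2 + ε') * Real.log N / Real.log (Real.log N)
        = (Real.log 2 + ε') * (Real.log N / Real.log (Real.log N)) := by ring
      _ ≤ (Real.log 2 + ε') * (((a + δ) * Real.log k) / Real.log (Real.log k)) :=
          mul_le_mul_of_nonneg_left (hstep1.trans hstep2) (by positivity)
      _ = ((Real.log 2 + ε') * (a + δ)) * Real.log k / Real.log (Real.log k) := by ring
      _ = (a * Real.log 2 + ε) * Real.log k / Real.log (Real.log k) := by rw [hkey]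

theorem divisors_half : ∃ m₀ : ℕ, ∀ m : ℕ, m₀ ≤ m → ∃ T' : ℕ, 2 * T' ≤ m ∧
    ∀ N : ℕ, 0 < N → N ≤ 64 * m ^ 4 → N.divisors.card ≤ T' := by
  obtain ⟨k₀, hk₀⟩ := divisors_uniform (ε := 1) one_pos 4 64 (by norm_num) (by norm_num)
  have hl2 : 0 < Real.log 2 := Real.log_pos (by norm_num)
  set A : ℝ := 4 * Real.log 2 + 1 with hA
  have hA0 : 0 < A := by positivity
  have e1 : ∀ᶠ k : ℕ in atTop, 2 * A ≤ Real.log (Real.log (k : ℝ)) :=
    tendsto_loglogCast.eventually_ge_atTop _
  obtain ⟨m₁, hm₁⟩ := eventually_atTop.1 e1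
  refine ⟨max (max k₀ m₁) 16, fun m hm => ⟨m / 4, by omega, fun N hN hNm => ?_⟩⟩
  have h1 : k₀ ≤ m := ((le_max_left _ _).trans (le_max_left _ _)).trans hm
  have h2 : m₁ ≤ m := ((le_max_right _ _).trans (le_max_left _ _)).trans hm
  have h3 : 16 ≤ m := (le_max_right _ _).trans hm
  have h4 := hk₀ m h1 N hN (hNm.trans (Nat.mul_le_mul_left _ (Nat.pow_le_pow_left (by omega) _)))
  have h5 := hm₁ m h2
  have hm16 : (16 : ℝ) ≤ (m : ℝ) := by exact_mod_cast h3
  have hm0 : (0 : ℝ) < (m : ℝ) := by linarith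
  have hlog : 0 ≤ Real.log (m : ℝ) := Real.log_nonneg (by linarith)
  have h6 : ((4 : ℕ) * Real.log 2 + 1) * Real.log m / Real.log (Real.log m) ≤ Real.log m / 2 := by
    have h7 : 0 < Real.log (Real.log (m : ℝ)) := by linarith
    have h8 : (((4 : ℕ) : ℝ) * Real.log 2 + 1) = A := by rw [hA]; norm_num
    rw [h8, div_le_iff₀ h7]
    nlinarith
  have h7 : (N.divisors.card : ℝ) ≤ Real.sqrt m := by
    refine h4.trans ((Real.exp_le_exp.2 h6).trans (le_of_eq ?_))
    rw [← Real.log_sqrt hm0.le, Real.exp_log (Real.sqrt_pos.2 hm0)]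
  have h8 : Real.sqrt m * 4 ≤ m := by
    have h9 : (4 : ℝ) ≤ Real.sqrt m := by
      rw [show (4 : ℝ) = Real.sqrt 16 by
        rw [show (16 : ℝ) = 4 ^ 2 by norm_num, Real.sqrt_sq (by norm_num)]]
      exact Real.sqrt_le_sqrt hm16
    calc Real.sqrt m * 4 ≤ Real.sqrt m * Real.sqrt m :=
          mul_le_mul_of_nonneg_left h9 (Real.sqrt_nonneg _)
      _ = m := Real.mul_self_sqrt hm0.le
  rw [Nat.le_div_iff_mul_le (by norm_num)]
  have h9 : (N.divisors.card : ℝ) * 4 ≤ m := by linarith
  exact_mod_cast h9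

end Pool.Agent.LargeDist.Sharp
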