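import Pool.Agent.LargeDist.Sharp.PrimesComb

set_option autoImplicit false

/-! # Many balanced factorisations: asymptotics

Proof. For large `m` put `x = ⌈5 log m⌉`, `s = ⌊log m / log x⌋` (so `x ^ s ≤ m`). By
`Chebyshev.pi_ge`, `π(x) ≥ (x log 2 - log (x+1)) / log x ≥ (x / 2) / log x` for large `x`, and
`x / 2 ≥ (5/2) log m ≥ 2 log m + log x`, so `π(x) ≥ 2 s + 1`. `exists_balanced` gives `N, P` with
`|P| ≥ 4 ^ s / (4 s)`, `log |P| ≥ s log 4 - log (4 s) ≥ log 4 (log m / log x - 1) - log (4 log m)`, and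
`log x ≤ log (6 log m) = log log m + log 6`. Divided by `log m / log log m` the lower bound tends to
`log 4`. -/

namespace Pool.Agent.LargeDist.Sharp

private theorem log_seven_le : Real.log 7 ≤ 2 := by
  rw [Real.log_le_iff_le_exp (by norm_num)]
  have h1 := Real.exp_one_gt_d9
  have h2 : Real.exp 2 = Real.exp 1 * Real.exp 1 := by
    rw [← Real.exp_add]
    norm_num
  rw [h2]
  nlinarith

private theorem log_four_eq : Real.log 4 = 2 * Real.log 2 := by
  have h : (4 : ℝ) = 2 ^ 2 := by norm_num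
  rw [h, Real.log_pow]
  norm_num

private theorem final_bound {ε y L : ℝ} (hε : 0 < ε) (hy : 5 ≤ y) (hyε : 15 / ε ≤ y)
    (hL : y ^ 3 / 6 ≤ L) :
    (Real.log 4 - ε) * L / y ≤ Real.log 4 * (L / (y + 2) - 1) - (Real.log 4 + y) := by
  have hlog := Real.log_two_lt_d9
  have hlog' := Real.log_two_gt_d9
  have h4 := log_four_eq
  set c := Real.log 4 with hc
  have hc1 : c ≤ 3 / 2 := by linarith
  have hc0 : 0 ≤ c := by linarith
  have hy0 : 0 < y := by linarith
  have hL0 : 0 < L := lt_of_lt_of_le (by positivity) hL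
  have h1 : L / y - L / (y + 2) ≤ 2 * L / y ^ 2 := by
    have e : L / y - L / (y + 2) = 2 * L / (y * (y + 2)) := by
      field_simp
      ring
    rw [e]
    apply div_le_div_of_nonneg_left (by positivity) (by positivity)
    nlinarith
  have h2 : c * (L / y - L / (y + 2)) ≤ 3 * L / y ^ 2 := by
    have h3 : c * (L / y - L / (y + 2)) ≤ c * (2 * L / y ^ 2) :=
      mul_le_mul_of_nonneg_left h1 hc0
    have h5 : c * (2 * L / y ^ 2) ≤ 3 / 2 * (2 * L / y ^ 2) :=
      mul_le_mul_of_nonneg_right hc1 (by positivity)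
    have h6 : (3 / 2 : ℝ) * (2 * L / y ^ 2) = 3 * L / y ^ 2 := by ring
    linarith
  have h3 : c + (c + y) ≤ 12 * L / y ^ 2 := by
    have h5 : 12 * (y ^ 3 / 6) / y ^ 2 ≤ 12 * L / y ^ 2 := by
      gcongr
    have h6 : 12 * (y ^ 3 / 6) / y ^ 2 = 2 * y := by
      field_simp
      ring
    linarith
  have h5 : 15 * L / y ^ 2 ≤ ε * L / y := by
    have h6 : 15 ≤ ε * y := by
      rw [div_le_iff₀ hε] at hyε
      linarith
    rw [div_le_div_iff₀ (by positivity) hy0]
    have h7 : 15 * (L * y) ≤ ε * y * (L * y) := mul_le_mul_of_nonneg_right h6 (by positivity)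
    nlinarith
  have e1 : (c - ε) * L / y = c * (L / y) - ε * L / y := by
    ring
  have e2 : 3 * L / y ^ 2 + 12 * L / y ^ 2 = 15 * L / y ^ 2 := by
    ring
  rw [e1]
  have e3 : c * (L / y - L / (y + 2)) = c * (L / y) - c * (L / (y + 2)) := by ring
  rw [e3] at h2
  have e4 : c * (L / (y + 2) - 1) = c * (L / (y + 2)) - c := by ring
  rw [e4]
  linarith

theorem exists_many {ε : ℝ} (hε : 0 < ε) : ∃ m₀ : ℕ, ∀ m : ℕ, m₀ ≤ m →
    ∃ (N : ℕ) (P : Finset ℕ), Odd N ∧ (∀ u ∈ P, u ∣ N ∧ u < N / u ∧ N / u ≤ m) ∧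
      Real.exp ((Real.log 4 - ε) * Real.log m / Real.log (Real.log m)) ≤ P.card := by
  refine ⟨⌈Real.exp (Real.exp (max 5 (15 / ε)))⌉₊, fun m hm => ?_⟩
  have hm' : Real.exp (Real.exp (max 5 (15 / ε))) ≤ m :=
    (Nat.le_ceil _).trans (by exact_mod_cast hm)
  have hmpos : (0 : ℝ) < m := lt_of_lt_of_le (Real.exp_pos _) hm'
  set L := Real.log m with hLdef
  have hL1 : Real.exp (max 5 (15 / ε)) ≤ L := by
    rw [hLdef, Real.le_log_iff_exp_le hmpos]
    exact hm'
  have hL0 : 0 < L := lt_of_lt_of_le (Real.exp_pos _) hL1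
  set y := Real.log L with hydef
  have hy1 : max 5 (15 / ε) ≤ y := by
    rw [hydef, Real.le_log_iff_exp_le hL0]
    exact hL1
  have hy5 : 5 ≤ y := (le_max_left _ _).trans hy1
  have hyε : 15 / ε ≤ y := (le_max_right _ _).trans hy1
  have hLy : Real.exp y = L := Real.exp_log hL0
  have hL3 : y ^ 3 / 6 ≤ L := by
    have h1 := Real.pow_div_factorial_le_exp y (by linarith) 3
    rw [hLy] at h1
    have h2 : ((Nat.factorial 3 : ℕ) : ℝ) = 6 := by
      norm_num [Nat.factorial]
    rw [h2] at h1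
    exact h1
  have hL2 : 2 * (y + 2) ≤ L := by
    have h1 : 2 * (y + 2) ≤ y ^ 3 / 6 := by
      have h2 : 25 * y ≤ y ^ 3 := by
        have h3 : (0 : ℝ) ≤ y := by linarith
        have h4 : (0 : ℝ) ≤ y - 5 := by linarith
        nlinarith [mul_nonneg h3 h4]
      linarith
    linarith
  have hL7 : 14 ≤ L := by linarith
  set x := ⌈5 * L⌉₊ with hxdef
  have hx1 : 5 * L ≤ x := Nat.le_ceil _
  have hx2 : (x : ℝ) < 5 * L + 1 := Nat.ceil_lt_add_one (by linarith)
  have hx0 : (0 : ℝ) < x := by linarith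
  have hlog7 : Real.log (7 * L) ≤ y + 2 := by
    rw [Real.log_mul (by norm_num) hL0.ne']
    have := log_seven_le
    linarith
  have hlx1 : Real.log (x + 1) ≤ y + 2 :=
    (Real.log_le_log (by linarith) (by linarith)).trans hlog7
  have hlx : Real.log x ≤ y + 2 :=
    (Real.log_le_log hx0 (by linarith)).trans hlog7
  have hlx5 : 5 ≤ Real.log x := by
    have : y ≤ Real.log x := Real.log_le_log hL0 (by linarith)
    linarith
  have hlx0 : 0 < Real.log x := by linarith
  set s := ⌊L / Real.log x⌋₊ with hsdef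
  have hs1 : (s : ℝ) ≤ L / Real.log x := Nat.floor_le (div_nonneg hL0.le hlx0.le)
  have hs2 : L / Real.log x < s + 1 := Nat.lt_floor_add_one _
  have hs3 : (s : ℝ) * Real.log x ≤ L := by
    rwa [le_div_iff₀ hlx0] at hs1
  have hs4 : 1 ≤ s := by
    rw [hsdef, Nat.one_le_floor_iff, one_le_div hlx0]
    linarith
  have hs5 : (1 : ℝ) ≤ s := by exact_mod_cast hs4
  have hpow : x ^ s ≤ m := by
    have h1 : ((x : ℝ)) ^ s ≤ m := by
      rw [← Real.exp_log hx0, ← Real.exp_nat_mul, ← Real.exp_log hmpos]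
      exact Real.exp_le_exp.2 hs3
    exact_mod_cast h1
  have hpi : 2 * s + 1 ≤ Nat.primeCounting x := by
    have h1 := Chebyshev.pi_ge x
    rw [div_le_iff₀ hlx0] at h1
    have hlog := Real.log_two_gt_d9
    have h2 : (3 : ℝ) * L ≤ x * Real.log 2 := by
      have : 5 * L * 0.6 ≤ x * Real.log 2 :=
        mul_le_mul hx1 (by linarith) (by norm_num) hx0.le
      linarith
    have h3 : ((2 * s + 1 : ℕ) : ℝ) * Real.log x ≤ Nat.primeCounting x * Real.log x := by
      push_cast
      have : (2 * (s : ℝ) + 1) * Real.log x = 2 * (s * Real.log x) + Real.log x := by ring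
      linarith
    have h4 := le_of_mul_le_mul_right h3 hlx0
    exact_mod_cast h4
  obtain ⟨N, P, hN, hP, hcard⟩ := exists_balanced x s m hs4 hpow hpi
  refine ⟨N, P, hN, hP, ?_⟩
  have hPpos : 0 < P.card := by
    by_contra hcon
    have h0 : P.card = 0 := by omega
    rw [h0, mul_zero] at hcard
    have : 0 < 4 ^ s := by positivity
    omega
  have hPpos' : (0 : ℝ) < P.card := by exact_mod_cast hPpos
  have hcard' : (4 : ℝ) ^ s ≤ 4 * s * P.card := by exact_mod_cast hcard
  have h1 : s * Real.log 4 ≤ Real.log (4 * s) + Real.log P.card := by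
    rw [← Real.log_pow, ← Real.log_mul (by positivity) hPpos'.ne']
    exact Real.log_le_log (by positivity) hcard'
  have hsL : (s : ℝ) ≤ L := by
    have : (s : ℝ) * 1 ≤ s * Real.log x :=
      mul_le_mul_of_nonneg_left (by linarith) (by linarith)
    linarith
  have h2 : Real.log (4 * s) ≤ Real.log 4 + y := by
    rw [hydef, ← Real.log_mul (by norm_num) hL0.ne']
    exact Real.log_le_log (by positivity) (by linarith)
  have h3 : L / (y + 2) - 1 ≤ s := by
    have : L / (y + 2) ≤ L / Real.log x :=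
      div_le_div_of_nonneg_left hL0.le hlx0 hlx
    linarith
  have hlog4 : 0 ≤ Real.log 4 := Real.log_nonneg (by norm_num)
  have h4 : Real.log 4 * (L / (y + 2) - 1) ≤ s * Real.log 4 := by
    rw [mul_comm]
    exact mul_le_mul_of_nonneg_right h3 hlog4
  have h5 := final_bound hε hy5 hyε hL3
  rw [← Real.exp_log hPpos']
  exact Real.exp_le_exp.2 (by linarith)

end Pool.Agent.LargeDist.Sharp
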