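import Pool.Agent.LargeDist.Sharp.LowerCone
import Pool.Agent.LargeDist.Sharp.LowerNT

set_option autoImplicit false

/-! # The lower bound

Proof. We may assume `ε < log 4`. For large `k` apply `exists_many` with `ε / 2` and `m = k / 2`
(natural division) to get `N, P`. Let `q = (k + |P| - 1) / 3` (natural division), so
`3 q + 1 ≤ k + |P|` and `3 q + 4 > k + |P|`, i.e. `3 q + 3 ≥ k + |P|`; `2 q ≥ 2 (k - 3) / 3 ≥ k / 2`
and `k / 2 ≥ m` for `k ≥ 12`. `le_M_three_sharp` and `M_le_f` give
`f 3 k ≥ 2 q + 1 ≥ (2 / 3) (k + |P| - 3) + 1 = 2 k / 3 + (2 / 3) |P| - 1`. It remains that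
`(2 / 3) exp ((log 4 - ε / 2) log m / log log m) - 1 ≥ exp ((log 4 - ε) log k / log log k)` for
large `k`, `m = k / 2 ≥ k / 3`: `log m / log log m ≥ (log k - log 3) / log log k` and
`log k / log log k → ∞`. -/

namespace Pool.Agent.LargeDist.Sharp

open Filter

private theorem log_ratio (C : ℝ) (hC : 0 < C) :
    ∀ᶠ k : ℕ in atTop, 0 < Real.log (Real.log k) ∧
      C ≤ Real.log k / Real.log (Real.log k) := by
  have h1 : ∀ᶠ y : ℝ in atTop, 1 < y ∧ ‖Real.log y‖ ≤ C⁻¹ * ‖id y‖ :=
    (eventually_gt_atTop 1).and (Real.isLittleO_log_id_atTop.bound (inv_pos.2 hC))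
  have h2 : Tendsto (fun k : ℕ => Real.log (k : ℝ)) atTop atTop :=
    Real.tendsto_log_atTop.comp tendsto_natCast_atTop_atTop
  filter_upwards [h2.eventually h1] with k hk
  obtain ⟨h3, h4⟩ := hk
  have h5 : 0 < Real.log (Real.log k) := Real.log_pos h3
  refine ⟨h5, ?_⟩
  rw [Real.norm_of_nonneg h5.le, id, Real.norm_of_nonneg (by linarith)] at h4
  rw [le_div_iff₀ h5]
  calc C * Real.log (Real.log k) ≤ C * (C⁻¹ * Real.log k) :=
        mul_le_mul_of_nonneg_left h4 hC.le
    _ = Real.log k := by rw [← mul_assoc, mul_inv_cancel₀ hC.ne', one_mul]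

private theorem f_three_ge' {ε : ℝ} (hε : 0 < ε) (hε1 : ε ≤ 1) :
    ∃ k₀ : ℕ, ∀ k : ℕ, k₀ ≤ k → ∃ n : ℕ,
    (n : ℕ∞) ≤ f 3 k ∧
      2 * (k : ℝ) / 3 +
        Real.exp ((Real.log 4 - ε) * (Real.log k / Real.log (Real.log k))) ≤ n := by
  have hlog4 : 1 < Real.log 4 := by
    rw [show (4 : ℝ) = 2 ^ 2 by norm_num, Real.log_pow]
    have := Real.log_two_gt_d9
    push_cast
    linarith
  obtain ⟨m₀, hm₀⟩ := exists_many (ε := ε / 2) (by linarith)
  set c : ℝ := Real.log 4 - ε / 2 with hc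
  have hc0 : 0 < c := by rw [hc]; linarith
  have hlog3 : 0 < Real.log 3 := Real.log_pos (by norm_num)
  have hev1 := log_ratio ((c + Real.log 3) * 2 / ε) (by positivity)
  have hev2 : ∀ᶠ k : ℕ in atTop, Real.log 3 ≤ Real.log (Real.log k) := by
    have h2 : Tendsto (fun k : ℕ => Real.log (Real.log (k : ℝ))) atTop atTop :=
      Real.tendsto_log_atTop.comp (Real.tendsto_log_atTop.comp tendsto_natCast_atTop_atTop)
    exact h2.eventually (eventually_ge_atTop _)
  obtain ⟨k₁, hk₁⟩ := eventually_atTop.1 (hev1.and hev2)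
  refine ⟨max k₁ (max (2 * m₀) 12), fun k hk => ?_⟩
  have hk1 : k₁ ≤ k := (le_max_left _ _).trans hk
  have hk2 : 2 * m₀ ≤ k := (le_max_left _ _).trans ((le_max_right _ _).trans hk)
  have hk3 : 12 ≤ k := (le_max_right _ _).trans ((le_max_right _ _).trans hk)
  obtain ⟨⟨hLL, hX⟩, hLL3⟩ := hk₁ k hk1
  obtain ⟨N, P, hN, hP, hcard⟩ := hm₀ (k / 2) (by omega)
  set q : ℕ := (k + P.card - 1) / 3 with hq
  have hq1 : 3 * q + 1 ≤ k + P.card := by omega
  have hq2 : k + P.card ≤ 3 * q + 3 := by omega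
  have hq3 : k / 2 ≤ 2 * q := by omega
  refine ⟨2 * q + 1, ?_, ?_⟩
  · exact (le_M_three_sharp q N k hN P (fun u hu =>
      ⟨(hP u hu).1, (hP u hu).2.1, (hP u hu).2.2.trans hq3⟩) hq1).trans (M_le_f 3 k (by omega))
  · set X : ℝ := Real.log k / Real.log (Real.log k) with hXdef
    -- the number `m = k / 2`
    set m : ℕ := k / 2 with hm
    have hmk : (k : ℝ) / 3 ≤ m := by
      have h1 : k ≤ 3 * m := by omega
      have h2 : (k : ℝ) ≤ 3 * m := by exact_mod_cast h1
      linarith
    have hm5 : (5 : ℝ) ≤ m := by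
      have h1 : 5 ≤ m := by omega
      exact_mod_cast h1
    have hk0 : (12 : ℝ) ≤ k := by exact_mod_cast hk3
    have hmk' : (m : ℝ) ≤ k := by
      have h1 : m ≤ k := by omega
      exact_mod_cast h1
    have hlm1 : 1 < Real.log m := by
      rw [Real.lt_log_iff_exp_lt (by linarith)]
      have := Real.exp_one_lt_d9
      linarith
    have hlmk : Real.log m ≤ Real.log k := Real.log_le_log (by linarith) hmk'
    have hllm : 0 < Real.log (Real.log m) := Real.log_pos hlm1
    have hllmk : Real.log (Real.log m) ≤ Real.log (Real.log k) :=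
      Real.log_le_log (by linarith) hlmk
    have hlm : Real.log k - Real.log 3 ≤ Real.log m := by
      rw [← Real.log_div (by linarith) (by norm_num)]
      exact Real.log_le_log (by linarith) hmk
    have h1 : X - 1 ≤ Real.log m / Real.log (Real.log m) := by
      calc X - 1 ≤ X - Real.log 3 / Real.log (Real.log k) := by
            have : Real.log 3 / Real.log (Real.log k) ≤ 1 := (div_le_one hLL).2 hLL3
            linarith
        _ = (Real.log k - Real.log 3) / Real.log (Real.log k) := by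
            rw [hXdef, sub_div]
        _ ≤ Real.log m / Real.log (Real.log k) := div_le_div_of_nonneg_right hlm hLL.le
        _ ≤ Real.log m / Real.log (Real.log m) :=
            div_le_div_of_nonneg_left (by linarith) hllm hllmk
    have hX0 : 0 < X := lt_of_lt_of_le (by positivity) hX
    have hXε : c + Real.log 3 ≤ ε / 2 * X := by
      have h2 := mul_le_mul_of_nonneg_left hX (show 0 ≤ ε / 2 by linarith)
      have h3 : ε / 2 * ((c + Real.log 3) * 2 / ε) = c + Real.log 3 := by
        field_simp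
      linarith
    have h2 : (Real.log 4 - ε) * X + Real.log 3 ≤ c * (Real.log m / Real.log (Real.log m)) := by
      have h3 : c * (X - 1) ≤ c * (Real.log m / Real.log (Real.log m)) :=
        mul_le_mul_of_nonneg_left h1 hc0.le
      have h4 : c * (X - 1) = (Real.log 4 - ε) * X + ε / 2 * X - c := by
        rw [hc]
        ring
      linarith
    have h3 : 3 * Real.exp ((Real.log 4 - ε) * X) ≤ P.card := by
      have h4 := Real.exp_le_exp.2 h2
      rw [Real.exp_add, Real.exp_log (by norm_num)] at h4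
      have h5 : c * (Real.log m / Real.log (Real.log m)) =
          c * Real.log m / Real.log (Real.log m) := by ring
      rw [h5] at h4
      linarith
    have h4 : 1 ≤ Real.exp ((Real.log 4 - ε) * X) := by
      rw [← Real.exp_zero]
      refine Real.exp_le_exp.2 (mul_nonneg (by linarith) hX0.le)
    have h5 : (k : ℝ) + P.card ≤ 3 * q + 3 := by exact_mod_cast hq2
    push_cast
    linarith

theorem f_three_ge {ε : ℝ} (hε : 0 < ε) : ∃ k₀ : ℕ, ∀ k : ℕ, k₀ ≤ k → ∃ n : ℕ,
    (n : ℕ∞) ≤ f 3 k ∧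
      2 * (k : ℝ) / 3 +
        Real.exp ((Real.log 4 - ε) * Real.log k / Real.log (Real.log k)) ≤ n := by
  obtain ⟨k₀, h⟩ := f_three_ge' (ε := min ε 1) (lt_min hε one_pos) (min_le_right _ _)
  obtain ⟨k₁, hk₁⟩ := eventually_atTop.1 (log_ratio 1 one_pos)
  refine ⟨max k₀ k₁, fun k hk => ?_⟩
  obtain ⟨n, hn, hn'⟩ := h k ((le_max_left _ _).trans hk)
  refine ⟨n, hn, le_trans ?_ hn'⟩
  have h1 := (hk₁ k ((le_max_right _ _).trans hk)).2
  rw [mul_div_assoc (Real.log 4 - ε)]
  have h2 : (Real.log 4 - ε) * (Real.log k / Real.log (Real.log k)) ≤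
      (Real.log 4 - min ε 1) * (Real.log k / Real.log (Real.log k)) :=
    mul_le_mul_of_nonneg_right (sub_le_sub_left (min_le_left _ _) _) (by linarith)
  have h3 := Real.exp_le_exp.2 h2
  linarith

end Pool.Agent.LargeDist.Sharp
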