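import Mathlib

set_option autoImplicit false

/-! # Coincidences are counted by divisors

Proof. If `C = ∅` this is trivial. For `b ∈ C` choose `δ` and put `s = q δ - (q b - p)`,
`t = q δ + (q b - p)` (integers). `s t = q² δ² - (q b - p)² = q² ρ² > 0` (multiply the equation by
`q²`) and `s + t = 2 q δ > 0`, so `s, t > 0`. The integer `N := s t > 0` is the same for all `b ∈ C`
(it equals the real number `q² ρ²`), and `N ≤ q² δ² ≤ q² R²`. `b ↦ s` is injective: `t = N / s` is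
determined by `s`, and `2 (q b - p) = t - s`. So `C` injects into the divisors of `N`. -/

namespace Pool.Agent.LargeDist.Sharp

theorem coincidences_le (R q : ℕ) (p : ℤ) (hq : 0 < q) (ρ : ℝ) (hρ : 0 < ρ) (T : ℕ)
    (hT : ∀ N : ℕ, 0 < N → N ≤ q ^ 2 * R ^ 2 → N.divisors.card ≤ T) (C : Finset ℤ)
    (hC : ∀ b ∈ C, ∃ δ : ℤ, 0 < δ ∧ δ ≤ R ∧ ((b : ℝ) - p / q) ^ 2 + ρ ^ 2 = (δ : ℝ) ^ 2) :
    C.card ≤ T := by
  classical
  rcases C.eq_empty_or_nonempty with rfl | ⟨b₀, hb₀⟩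
  · simp
  choose! δ hδ0 hδR hδ using hC
  have hq' : (0 : ℝ) < q := by exact_mod_cast hq
  have hqz : (0 : ℤ) < q := by exact_mod_cast hq
  have key : ∀ b ∈ C, (((q * δ b - (q * b - p)) * (q * δ b + (q * b - p)) : ℤ) : ℝ) =
      q ^ 2 * ρ ^ 2 := by
    intro b hb
    have h := hδ b hb
    have h2 : ρ ^ 2 = (δ b : ℝ) ^ 2 - ((b : ℝ) - p / q) ^ 2 := by linarith
    push_cast
    rw [h2]
    field_simp
    ring
  set N₀ : ℤ := (q * δ b₀ - (q * b₀ - p)) * (q * δ b₀ + (q * b₀ - p)) with hN0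
  have hNpos : 0 < N₀ := by
    have h : (0 : ℝ) < (N₀ : ℝ) := by
      rw [key b₀ hb₀]
      positivity
    exact_mod_cast h
  have hN : ∀ b ∈ C, (q * δ b - (q * b - p)) * (q * δ b + (q * b - p)) = N₀ := by
    intro b hb
    have h : (((q * δ b - (q * b - p)) * (q * δ b + (q * b - p)) : ℤ) : ℝ) = (N₀ : ℝ) := by
      rw [key b hb, key b₀ hb₀]
    exact_mod_cast h
  have hs : ∀ b ∈ C, 0 < q * δ b - (q * b - p) := by
    intro b hb
    have h1 := hN b hb
    have h2 : 0 < (q : ℤ) * δ b := mul_pos hqz (hδ0 b hb)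
    by_contra hcon
    rw [not_lt] at hcon
    have h3 : 0 < q * δ b + (q * b - p) := by linarith
    have h4 := mul_nonpos_of_nonpos_of_nonneg hcon h3.le
    linarith
  have hle : N₀.toNat ≤ q ^ 2 * R ^ 2 := by
    have h2 : N₀ ≤ (q : ℤ) ^ 2 * δ b₀ ^ 2 := by
      have h5 : (q : ℤ) ^ 2 * δ b₀ ^ 2 - N₀ = (q * b₀ - p) ^ 2 := by
        rw [hN0]
        ring
      have h6 := sq_nonneg ((q : ℤ) * b₀ - p)
      linarith
    have h3 : δ b₀ ^ 2 ≤ (R : ℤ) ^ 2 := pow_le_pow_left₀ (hδ0 b₀ hb₀).le (hδR b₀ hb₀) 2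
    have h4 : N₀ ≤ (q : ℤ) ^ 2 * R ^ 2 :=
      h2.trans (mul_le_mul_of_nonneg_left h3 (sq_nonneg _))
    rw [Int.toNat_le]
    exact_mod_cast h4
  refine le_trans ?_ (hT N₀.toNat (by omega) hle)
  refine Finset.card_le_card_of_injOn (fun b => (q * δ b - (q * b - p)).toNat) ?_ ?_
  · intro b hb
    rw [Finset.mem_coe, Nat.mem_divisors]
    refine ⟨?_, by omega⟩
    have h2 := hs b hb
    rw [← Int.natCast_dvd_natCast, Int.toNat_of_nonneg h2.le, Int.toNat_of_nonneg hNpos.le]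
    exact ⟨_, (hN b hb).symm⟩
  · intro b hb b' hb' heq
    have h2 := hs b hb
    have h2' := hs b' hb'
    have hss : q * δ b - (q * b - p) = q * δ b' - (q * b' - p) := by
      have h := congrArg (Nat.cast : ℕ → ℤ) heq
      simp only [] at h
      rwa [Int.toNat_of_nonneg h2.le, Int.toNat_of_nonneg h2'.le] at h
    have h1 := hN b hb
    have h1' := hN b' hb'
    rw [← hss] at h1'
    have htt := mul_left_cancel₀ h2.ne' (h1.trans h1'.symm)
    have h3 : (q : ℤ) * b = q * b' := by linarith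
    exact mul_left_cancel₀ hqz.ne' h3

end Pool.Agent.LargeDist.Sharp
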