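import Mathlib

set_option autoImplicit false

/-! # Counting real differences class by class

Proof. For `κ ∈ ψ(B - B)` let `D_κ` be the set of the `d ∈ B - B` with `ψ d = κ`, and
`B_c = {b ∈ B : ψ b = c}`. `|B - B| = ∑_κ |D_κ|`, so it suffices that `2 h ≤ |D_κ| + η + 1` for every
`κ`. If `κ = c - c'` with `c ≠ c'` classes of `B`, then `B_c - B_c' ⊆ D_κ` and
`|B_c - B_c'| ≥ |B_c| + |B_c'| - 1` (Cauchy-Davenport in a linearly ordered group; Mathlib has
`cauchy_davenport_add_of_linearOrder_isCancelAdd` or similar), use `hB`. If `κ = 0`, choose two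
different classes `c, c'` of `B` (`h2`), say `|B_c| ≥ |B_c'|`; `B_c - B_c ⊆ D_0`, so
`|D_0| ≥ 2 |B_c| - 1 ≥ |B_c| + |B_c'| - 1`. -/

namespace Pool.Agent.LargeDist.Sharp

open scoped Pointwise Classical

private lemma sub_count (A C : Finset ℝ) (hA : A.Nonempty) (hC : C.Nonempty) :
    A.card + C.card ≤ (A - C).card + 1 := by
  have h := cauchy_davenport_add_of_linearOrder_isCancelAdd hA hC.neg
  rw [Finset.card_neg, ← sub_eq_add_neg] at h
  have h1 : 0 < A.card := hA.card_pos
  omega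

theorem real_count {Q : Type} [AddCommGroup Q] (ψ : ℝ →+ Q) (B : Finset ℝ) (h η : ℕ)
    (h2 : 2 ≤ (B.image ψ).card)
    (hB : ∀ c ∈ B.image ψ, ∀ c' ∈ B.image ψ, c ≠ c' →
      2 * h ≤ (B.filter (fun b => ψ b = c)).card + (B.filter (fun b => ψ b = c')).card + η) :
    ((B - B).image ψ).card * (2 * h) ≤
      (B - B).card + ((B - B).image ψ).card * (η + 1) := by
  have hne : ∀ c ∈ B.image ψ, (B.filter (fun b => ψ b = c)).Nonempty := by
    intro c hc
    obtain ⟨b, hb, rfl⟩ := Finset.mem_image.1 hc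
    exact ⟨b, Finset.mem_filter.2 ⟨hb, rfl⟩⟩
  have hsub : ∀ c c' : Q, (B.filter (fun b => ψ b = c)) - (B.filter (fun b => ψ b = c')) ⊆
      (B - B).filter (fun d => ψ d = c - c') := by
    intro c c' d hd
    obtain ⟨x, hx, y, hy, rfl⟩ := Finset.mem_sub.1 hd
    rw [Finset.mem_filter] at hx hy
    rw [Finset.mem_filter]
    refine ⟨Finset.sub_mem_sub hx.1 hy.1, ?_⟩
    rw [map_sub, hx.2, hy.2]
  have key : ∀ κ ∈ (B - B).image ψ,
      2 * h ≤ ((B - B).filter (fun d => ψ d = κ)).card + (η + 1) := by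
    intro κ hκ
    obtain ⟨d, hd, rfl⟩ := Finset.mem_image.1 hκ
    obtain ⟨x, hx, y, hy, rfl⟩ := Finset.mem_sub.1 hd
    have hx' : ψ x ∈ B.image ψ := Finset.mem_image_of_mem _ hx
    have hy' : ψ y ∈ B.image ψ := Finset.mem_image_of_mem _ hy
    rw [map_sub]
    by_cases hxy : ψ x = ψ y
    · obtain ⟨c, hc, c', hc', hcc⟩ := Finset.one_lt_card.1 (show 1 < (B.image ψ).card by omega)
      have e := hB c hc c' hc' hcc
      rw [hxy, sub_self]
      have a1 := Finset.card_le_card (hsub c c)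
      have a2 := sub_count _ _ (hne c hc) (hne c hc)
      have b1 := Finset.card_le_card (hsub c' c')
      have b2 := sub_count _ _ (hne c' hc') (hne c' hc')
      rw [sub_self] at a1 b1
      omega
    · have e := hB _ hx' _ hy' hxy
      have a1 := Finset.card_le_card (hsub (ψ x) (ψ y))
      have a2 := sub_count _ _ (hne _ hx') (hne _ hy')
      omega
  have hsum : (B - B).card = ∑ κ ∈ (B - B).image ψ, ((B - B).filter (fun d => ψ d = κ)).card :=
    Finset.card_eq_sum_card_image ψ (B - B)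
  have h3 : ∑ κ ∈ (B - B).image ψ, (2 * h) ≤
      ∑ κ ∈ (B - B).image ψ, (((B - B).filter (fun d => ψ d = κ)).card + (η + 1)) :=
    Finset.sum_le_sum key
  rw [Finset.sum_const, smul_eq_mul, Finset.sum_add_distrib, Finset.sum_const, smul_eq_mul,
    ← hsum] at h3
  exact h3

end Pool.Agent.LargeDist.Sharp
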