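import Pool.Agent.LargeDist.Sharp.KneserSub
import Pool.Agent.LargeDist.Sharp.RealCount

set_option autoImplicit false

/-! # Freiman's theorem for difference sets of real numbers (weak constants)

Proof. `m = |B| ≥ 3` by the hypothesis. Let `b₁` be the minimum of `B`, `B₀ = B - b₁` (image under
`b ↦ b - b₁`), `L = max B₀ > 0`; `B₀ - B₀ = B - B`, `0, L ∈ B₀ ⊆ [0, L]`. Let
`π₁ : ℝ → AddCircle L` and `A = π₁(B₀)`. `π₁` is injective on `[0, L)` and `π₁ L = π₁ 0`, so
`n := |A| = m - 1`, `0 ∈ A`.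
(i) `|A - A| + m ≤ |B - B|`: put `D = B₀ - B₀`, `T = {b - L : b ∈ B₀} ⊆ D`, `|T| = m`. Then
`A - A ⊆ π₁(D \ T)`: let `x = π₁ d`, `d ∈ D`; if `d ∉ T` fine; if `d = b - L` with `b ∈ B₀`, `b ≠ 0`,
then `x = π₁ b`, `b = b - 0 ∈ D`, `b > 0` so `b ∉ T` (the elements of `T` are `≤ 0`); if `b = 0` then
`x = 0 = π₁ L` and `L = L - 0 ∈ D`, `L ∉ T`.
(ii) So `|A - A| ≤ 2 m - 7 = 2 n - 5`, and `kneser_sub` applies to `A`.
Case 1: `K = closure A ⊆ A - A`. Then `K` is finite, `N := |K| ≤ 2 m`, and for `b ∈ B₀` we have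
`N • π₁ b = 0` (Lagrange), so `N b = j L` with `j ∈ ℤ`, and `0 ≤ b ≤ L` gives `0 ≤ j ≤ N ≤ 2 m`. Take
`a = b₁`, `g = L / N`.
Case 2: `H, h` with `u = |π(A)| ≥ 2`, `v = |π(A - A)|`, `|A - A| = v h`, `2 u ≤ v + 1`. Let `ψ` be
the composition `ℝ → AddCircle L → AddCircle L ⧸ H`. `ψ(B₀) = π(A)`, `ψ(B₀ - B₀) = π(A - A)`. The
fibres of `A` have size `≤ h`, so `n ≤ u h`; let `η = u h - n`. For classes `c ≠ c'`:
`n ≤ |A_c| + |A_c'| + (u - 2) h`, so `2 h ≤ |A_c| + |A_c'| + η`, and `|B₀_c| ≥ |A_c|` because `B₀_c`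
is mapped onto `A_c`. `real_count` (for `B₀`) gives `v (2 h) ≤ |B - B| + v (η + 1)`. Now a
contradiction: `v h ≤ 2 n - 5 = 2 u h - 2 η - 5` and `v ≥ 2 u - 1` give `2 η + 5 ≤ h`; and
`v (2 h - η - 1) ≤ |B - B| ≤ 3 m - 7 = 3 n - 4 = 3 u h - 3 η - 4`, while
`v (2 h - η - 1) ≥ (2 u - 1)(2 h - η - 1)`, and
`(2 u - 1)(2 h - η - 1) - (3 u h - 3 η - 4) = (u - 2)(h - 2 η) - 2 u + 5 ≥ 5 (u - 2) - 2 u + 5 > 0`. -/

namespace Pool.Agent.LargeDist.Sharp

open scoped Pointwise

/-- The final computation. -/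
private theorem fs_calc {u v h n η D : ℤ} (hu : 2 ≤ u) (hv : 2 * u ≤ v + 1) (hη : η = u * h - n)
    (hη0 : 0 ≤ η) (hh : 1 ≤ h) (h1 : v * h + 5 ≤ 2 * n) (h2 : v * (2 * h) ≤ D + v * (η + 1))
    (h3 : D + 4 ≤ 3 * n) : False := by
  have e1 : (2 * u - 1) * h ≤ v * h := mul_le_mul_of_nonneg_right (by omega) (by omega)
  have e2 : 2 * η + 5 ≤ h := by
    rw [hη]
    linarith
  have e3 : (2 * u - 1) * (2 * h - η - 1) ≤ v * (2 * h - η - 1) :=
    mul_le_mul_of_nonneg_right (by omega) (by omega)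
  have e4 : 0 ≤ (u - 2) * (h - 2 * η - 2) := mul_nonneg (by omega) (by omega)
  have e5 : n = u * h - η := by omega
  subst e5
  nlinarith

private theorem fs_count {Q : Type} [AddCommGroup Q] [inst : DecidableEq Q] (ψ : ℝ →+ Q)
    (B : Finset ℝ) (h η : ℕ) (h2 : 2 ≤ (B.image ψ).card)
    (hB : ∀ c ∈ B.image ψ, ∀ c' ∈ B.image ψ, c ≠ c' →
      2 * h ≤ (B.filter (fun b => ψ b = c)).card + (B.filter (fun b => ψ b = c')).card + η) :
    ((B - B).image ψ).card * (2 * h) ≤
      (B - B).card + ((B - B).image ψ).card * (η + 1) := by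
  obtain rfl : inst = fun a b => Classical.propDecidable (a = b) := Subsingleton.elim _ _
  exact real_count ψ B h η h2 hB

section

open scoped Classical

/-- The circle of length `L`, abstractly. -/
private theorem fs_core {Γ : Type} [AddCommGroup Γ] (p : ℝ →+ Γ) {L : ℝ} (hL : 0 < L)
    (hp : ∀ x, p x = 0 ↔ ∃ k : ℤ, x = k * L) (C : Finset ℝ) (h0 : (0 : ℝ) ∈ C) (hLC : L ∈ C)
    (hC : ∀ b ∈ C, 0 ≤ b ∧ b ≤ L) (h : (C - C).card + 7 ≤ 3 * C.card) :
    ∃ g : ℝ, 0 < g ∧ ∀ b ∈ C, ∃ j : ℕ, j ≤ 2 * C.card ∧ b = j * g := by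
  have hpL : p L = 0 := (hp L).2 ⟨1, by simp⟩
  obtain ⟨A, hA⟩ : ∃ A, A = C.image p := ⟨_, rfl⟩
  -- the number of elements of `A`
  have hn : A.card + 1 = C.card := by
    have h1 : A = (C.erase L).image p := by
      rw [hA]
      ext x
      simp only [Finset.mem_image, Finset.mem_erase]
      constructor
      · rintro ⟨b, hb, rfl⟩
        by_cases hbL : b = L
        · exact ⟨0, ⟨hL.ne, h0⟩, by rw [hbL, hpL, map_zero]⟩
        · exact ⟨b, ⟨hbL, hb⟩, rfl⟩
      · rintro ⟨b, ⟨-, hb⟩, rfl⟩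
        exact ⟨b, hb, rfl⟩
    have h2 : Set.InjOn p (C.erase L : Finset ℝ) := by
      intro b hb b' hb' hbb
      rw [Finset.mem_coe, Finset.mem_erase] at hb hb'
      have h3 : p (b - b') = 0 := by rw [map_sub, hbb, sub_self]
      obtain ⟨k, hk⟩ := (hp _).1 h3
      have h4 := hC b hb.2
      have h5 := hC b' hb'.2
      have h6 : b < L := lt_of_le_of_ne h4.2 hb.1
      have h7 : b' < L := lt_of_le_of_ne h5.2 hb'.1
      have h8 : (k : ℝ) * L < 1 * L := by linarith
      have h9 : (-1 : ℝ) * L < k * L := by linarith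
      have h10 : (k : ℝ) < 1 := lt_of_mul_lt_mul_right h8 hL.le
      have h11 : (-1 : ℝ) < k := lt_of_mul_lt_mul_right h9 hL.le
      have h12 : k < 1 := by exact_mod_cast h10
      have h13 : -1 < k := by exact_mod_cast h11
      have h14 : k = 0 := by omega
      rw [h14] at hk
      simp only [Int.cast_zero, zero_mul] at hk
      linarith
    rw [h1, Finset.card_image_of_injOn h2, Finset.card_erase_add_one hLC]
  -- the number of differences
  have hi : (A - A).card + C.card ≤ (C - C).card := by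
    obtain ⟨T, hT⟩ : ∃ T, T = C.image (· - L) := ⟨_, rfl⟩
    have hTD : T ⊆ C - C := by
      intro x hx
      rw [hT, Finset.mem_image] at hx
      obtain ⟨b, hb, rfl⟩ := hx
      exact Finset.sub_mem_sub hb hLC
    have hTc : T.card = C.card := by
      rw [hT]
      exact Finset.card_image_of_injective _ (sub_left_injective)
    have hT0 : ∀ x ∈ T, x ≤ 0 := by
      intro x hx
      rw [hT, Finset.mem_image] at hx
      obtain ⟨b, hb, rfl⟩ := hx
      have := (hC b hb).2
      linarith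
    have hsub : A - A ⊆ ((C - C) \ T).image p := by
      intro x hx
      obtain ⟨y, hy, z, hz, rfl⟩ := Finset.mem_sub.1 hx
      rw [hA, Finset.mem_image] at hy hz
      obtain ⟨b, hb, rfl⟩ := hy
      obtain ⟨c, hc, rfl⟩ := hz
      rw [Finset.mem_image]
      by_cases hbc : b - c ∈ T
      · rw [hT, Finset.mem_image] at hbc
        obtain ⟨d, hd, hd'⟩ := hbc
        by_cases hd0 : d = 0
        · refine ⟨L, Finset.mem_sdiff.2 ⟨?_, fun hL' => ?_⟩, ?_⟩
          · have := Finset.sub_mem_sub hLC h0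
            rwa [sub_zero] at this
          · have := hT0 L hL'
            linarith
          · rw [← map_sub, ← hd', hd0, map_sub, map_zero, hpL, sub_zero]
        · refine ⟨d, Finset.mem_sdiff.2 ⟨?_, fun hd1 => ?_⟩, ?_⟩
          · have := Finset.sub_mem_sub hd h0
            rwa [sub_zero] at this
          · have := hT0 d hd1
            have := (hC d hd).1
            exact hd0 (le_antisymm (by assumption) (by assumption))
          · rw [← map_sub, ← hd', map_sub, hpL, sub_zero]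
      · exact ⟨b - c, Finset.mem_sdiff.2 ⟨Finset.sub_mem_sub hb hc, hbc⟩, by rw [map_sub]⟩
    have h1 := (Finset.card_le_card hsub).trans Finset.card_image_le
    have h2 := Finset.card_sdiff_add_card_eq_card hTD
    omega
  have hA0 : (0 : Γ) ∈ A := by
    rw [hA, Finset.mem_image]
    exact ⟨0, h0, map_zero p⟩
  rcases kneser_sub A hA0 (by omega) with hK | ⟨H, k, hk1, hk2, hk3, hk4, hk5⟩
  · -- the subgroup
    have hfin : ((AddSubgroup.closure (A : Set Γ) : AddSubgroup Γ) : Set Γ).Finite :=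
      (A - A).finite_toSet.subset fun x hx => hK x hx
    haveI : Finite (AddSubgroup.closure (A : Set Γ)) := hfin.to_subtype
    obtain ⟨N, hN⟩ : ∃ N, N = Nat.card (AddSubgroup.closure (A : Set Γ)) := ⟨_, rfl⟩
    have hN0 : 0 < N := by
      rw [hN]
      exact Nat.card_pos
    have hN1 : N ≤ (A - A).card := by
      have h1 : Nat.card (AddSubgroup.closure (A : Set Γ)) =
          ((AddSubgroup.closure (A : Set Γ) : AddSubgroup Γ) : Set Γ).ncard := rfl
      rw [hN, h1, ← Set.ncard_coe_finset]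
      exact Set.ncard_le_ncard (fun x hx => hK x hx) (A - A).finite_toSet
    have hmul : ∀ b ∈ C, N • p b = 0 := by
      intro b hb
      have hb' : p b ∈ AddSubgroup.closure (A : Set Γ) := by
        refine AddSubgroup.subset_closure ?_
        rw [hA, Finset.mem_coe, Finset.mem_image]
        exact ⟨b, hb, rfl⟩
      have h1 : N • (⟨p b, hb'⟩ : AddSubgroup.closure (A : Set Γ)) = 0 := by
        rw [hN]
        exact card_nsmul_eq_zero'
      have h2 := congrArg (fun x : AddSubgroup.closure (A : Set Γ) => (x : Γ)) h1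
      simpa using h2
    have hNr : (0 : ℝ) < N := by exact_mod_cast hN0
    refine ⟨L / N, div_pos hL hNr, fun b hb => ?_⟩
    have h1 : p (N * b) = 0 := by
      rw [← nsmul_eq_mul, map_nsmul]
      exact hmul b hb
    obtain ⟨k, hk⟩ := (hp _).1 h1
    obtain ⟨hb0, hbL⟩ := hC b hb
    have h2 : (0 : ℝ) * L ≤ k * L := by
      rw [← hk, zero_mul]
      positivity
    have h3 : (k : ℝ) * L ≤ N * L := by
      rw [← hk]
      exact mul_le_mul_of_nonneg_left hbL hNr.le
    have h4 : (0 : ℝ) ≤ k := le_of_mul_le_mul_right h2 hL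
    have h5 : (k : ℝ) ≤ N := le_of_mul_le_mul_right h3 hL
    have h6 : 0 ≤ k := by exact_mod_cast h4
    have h7 : k ≤ N := by exact_mod_cast h5
    refine ⟨k.toNat, by omega, ?_⟩
    have h8 : ((k.toNat : ℕ) : ℝ) = (k : ℝ) := by
      have : ((k.toNat : ℕ) : ℤ) = k := Int.toNat_of_nonneg h6
      exact_mod_cast this
    rw [h8, ← mul_div_assoc, ← hk]
    field_simp
  · -- the cosets
    exfalso
    obtain ⟨ψ, hψ⟩ : ∃ ψ : ℝ →+ Γ ⧸ H, ψ = (QuotientAddGroup.mk' H).comp p := ⟨_, rfl⟩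
    have hψ' : ∀ x, ψ x = (QuotientAddGroup.mk (p x) : Γ ⧸ H) := by
      intro x
      rw [hψ]
      rfl
    obtain ⟨u, hu⟩ : ∃ u, u = (A.image (QuotientAddGroup.mk : Γ → Γ ⧸ H)).card := ⟨_, rfl⟩
    obtain ⟨v, hv⟩ : ∃ v, v = ((A - A).image (QuotientAddGroup.mk : Γ → Γ ⧸ H)).card := ⟨_, rfl⟩
    rw [← hu] at hk3 hk5
    rw [← hv] at hk4 hk5
    have i1 : C.image ψ = A.image (QuotientAddGroup.mk : Γ → Γ ⧸ H) := by
      rw [hA, Finset.image_image]
      exact Finset.image_congr fun x _ => hψ' x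
    have i2 : (C - C).image ψ = (A - A).image (QuotientAddGroup.mk : Γ → Γ ⧸ H) := by
      have h1 : A - A = (C - C).image p := by
        ext x
        simp only [hA, Finset.mem_sub, Finset.mem_image]
        constructor
        · rintro ⟨_, ⟨b, hb, rfl⟩, _, ⟨c, hc, rfl⟩, rfl⟩
          exact ⟨b - c, ⟨b, hb, c, hc, rfl⟩, map_sub p b c⟩
        · rintro ⟨_, ⟨b, hb, c, hc, rfl⟩, rfl⟩
          exact ⟨_, ⟨b, hb, rfl⟩, _, ⟨c, hc, rfl⟩, (map_sub p b c).symm⟩
      rw [h1, Finset.image_image]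
      exact Finset.image_congr fun x _ => hψ' x
    have hnu : A.card ≤ k * u := by
      rw [hu]
      exact Finset.card_le_mul_card_image A k fun c _ => hk2 c
    obtain ⟨η, hη⟩ : ∃ η, η = k * u - A.card := ⟨_, rfl⟩
    have hcount := fs_count ψ C k η (by rw [i1, ← hu]; exact hk3) (by
      intro c hc c' hc' hcc
      rw [i1] at hc hc'
      have f1 : ∀ c, (A.filter fun a => (QuotientAddGroup.mk a : Γ ⧸ H) = c).card ≤
          (C.filter fun b => ψ b = c).card := by
        intro c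
        have h1 : (A.filter fun a => (QuotientAddGroup.mk a : Γ ⧸ H) = c) ⊆
            (C.filter fun b => ψ b = c).image p := by
          intro a ha
          rw [Finset.mem_filter, hA, Finset.mem_image] at ha
          obtain ⟨⟨b, hb, rfl⟩, hc⟩ := ha
          rw [Finset.mem_image]
          exact ⟨b, Finset.mem_filter.2 ⟨hb, by rw [hψ']; exact hc⟩, rfl⟩
        exact (Finset.card_le_card h1).trans Finset.card_image_le
      have f2 : A.card ≤ (A.filter fun a => (QuotientAddGroup.mk a : Γ ⧸ H) = c).card +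
          ((A.filter fun a => (QuotientAddGroup.mk a : Γ ⧸ H) = c').card + k * (u - 2)) := by
        rw [Finset.card_eq_sum_card_image (QuotientAddGroup.mk : Γ → Γ ⧸ H) A,
          ← Finset.add_sum_erase _ _ hc, ← Finset.add_sum_erase _ _
            (Finset.mem_erase.2 ⟨hcc.symm, hc'⟩)]
        refine Nat.add_le_add_left (Nat.add_le_add_left ?_ _) _
        refine (Finset.sum_le_card_nsmul _ _ k fun d _ => hk2 d).trans ?_
        rw [smul_eq_mul, Finset.card_erase_of_mem (Finset.mem_erase.2 ⟨hcc.symm, hc'⟩),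
          Finset.card_erase_of_mem hc, ← hu, mul_comm]
        exact Nat.mul_le_mul_left _ (by omega)
      have f3 := f1 c
      have f4 := f1 c'
      obtain ⟨u', hu'⟩ : ∃ u', u = u' + 2 := ⟨u - 2, by omega⟩
      have f5 : k * u = k * (u - 2) + 2 * k := by
        rw [hu', Nat.add_sub_cancel]
        ring
      omega)
    rw [i2, ← hv] at hcount
    refine fs_calc (u := u) (v := v) (h := k) (n := A.card) (η := η) (D := (C - C).card)
      (by exact_mod_cast hk3) (by exact_mod_cast hk5) ?_ (by positivity) (by exact_mod_cast hk1) ?_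
      (by exact_mod_cast hcount) ?_
    · rw [hη, Nat.cast_sub hnu]
      push_cast
      ring
    · have : v * k + 5 ≤ 2 * A.card := by omega
      exact_mod_cast this
    · have : (C - C).card + 4 ≤ 3 * A.card := by omega
      exact_mod_cast this

end

theorem freiman_sub (B : Finset ℝ) (h : (B - B).card + 7 ≤ 3 * B.card) :
    ∃ a g : ℝ, 0 < g ∧ ∀ b ∈ B, ∃ j : ℕ, j ≤ 2 * B.card ∧ b = a + j * g := by
  have hne : B.Nonempty := by
    rw [Finset.nonempty_iff_ne_empty]
    rintro rfl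
    simp at h
  have h1 : 1 ≤ (B - B).card := by
    obtain ⟨b, hb⟩ := hne
    exact Finset.card_pos.2 ⟨b - b, Finset.sub_mem_sub hb hb⟩
  obtain ⟨a, ha⟩ : ∃ a, a = B.min' hne := ⟨_, rfl⟩
  obtain ⟨z, hz⟩ : ∃ z, z = B.max' hne := ⟨_, rfl⟩
  have haB : a ∈ B := by
    rw [ha]
    exact B.min'_mem hne
  have hzB : z ∈ B := by
    rw [hz]
    exact B.max'_mem hne
  have hle : ∀ b ∈ B, a ≤ b ∧ b ≤ z := by
    intro b hb
    rw [ha, hz]
    exact ⟨B.min'_le b hb, B.le_max' b hb⟩
  have hL : 0 < z - a := by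
    rcases (hle z hzB).1.lt_or_eq with h2 | h2
    · linarith
    · exfalso
      have h3 : B ⊆ {a} := by
        intro b hb
        rw [Finset.mem_singleton]
        have := hle b hb
        linarith
      have h4 := Finset.card_le_card h3
      rw [Finset.card_singleton] at h4
      omega
  obtain ⟨C, hC⟩ : ∃ C, C = B.image (· - a) := ⟨_, rfl⟩
  have hCc : C.card = B.card := by
    rw [hC]
    exact Finset.card_image_of_injective _ sub_left_injective
  have hCC : C - C = B - B := by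
    ext x
    simp only [hC, Finset.mem_sub, Finset.mem_image]
    constructor
    · rintro ⟨_, ⟨b, hb, rfl⟩, _, ⟨c, hc, rfl⟩, rfl⟩
      exact ⟨b, hb, c, hc, by ring⟩
    · rintro ⟨b, hb, c, hc, rfl⟩
      exact ⟨_, ⟨b, hb, rfl⟩, _, ⟨c, hc, rfl⟩, by ring⟩
  obtain ⟨g, hg, hg'⟩ := fs_core (QuotientAddGroup.mk' (AddSubgroup.zmultiples (z - a))) hL (by
      intro x
      rw [QuotientAddGroup.mk'_apply, QuotientAddGroup.eq_zero_iff, AddSubgroup.mem_zmultiples_iff]
      constructor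
      · rintro ⟨k, rfl⟩
        exact ⟨k, by rw [zsmul_eq_mul]⟩
      · rintro ⟨k, rfl⟩
        exact ⟨k, by rw [zsmul_eq_mul]⟩) C
    (by rw [hC, Finset.mem_image]; exact ⟨a, haB, by ring⟩)
    (by rw [hC, Finset.mem_image]; exact ⟨z, hzB, rfl⟩) (by
      intro b hb
      rw [hC, Finset.mem_image] at hb
      obtain ⟨c, hc, rfl⟩ := hb
      have := hle c hc
      constructor <;> linarith) (by
      rw [hCC, hCc]
      exact h)
  refine ⟨a, g, hg, fun b hb => ?_⟩
  obtain ⟨j, hj, hj'⟩ := hg' (b - a) (by rw [hC, Finset.mem_image]; exact ⟨b, hb, rfl⟩)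
  refine ⟨j, by rwa [hCc] at hj, ?_⟩
  rw [← hj']
  ring

end Pool.Agent.LargeDist.Sharp
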