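import Pool.Agent.LargeDist.LineBound
import Pool.Agent.LargeDist.Sharp.FreimanSub
import Pool.Agent.LargeDist.Sharp.Coinc

set_option autoImplicit false

/-! # Collinear points and one point off the line: the sharp bound

`rd B` = set of the `|x - y|`, `x ≠ y` in `B`; `uu o ρ x = √((x - o)² + ρ²)`; `Δ` contains both
`rd B` and `uu o ρ (B)`. Useful: `card_sub_le`, `card_le_rd`, `card_le_two_mul_uu`, `uu_sq`.

Proof. Let `m = |B|`. Case I: `|B - B| + 7 > 3 m`. `card_sub_le` gives `3 m < 2 |rd B| + 8`, so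
`3 m ≤ 2 |Δ| + 7`.
Case II: `freiman_sub`: `b = a + g j(b)`, `j(b) ≤ 2 m` natural, `g > 0`; `j` is injective on `B`. Put
`o' = (o - a) / g`, `ρ' = ρ / g > 0`: `uu o ρ b = g √((j(b) - o')² + ρ'²)`, and the elements of `rd B`
are `g |j(b) - j(b')|` with `1 ≤ |j(b) - j(b')| ≤ 2 m` integers. Let `C = {b ∈ B : uu o ρ b ∈ rd B}`.
For `b ∈ C` there is an integer `0 < δ_b ≤ 2 m` with `(j(b) - o')² + ρ'² = δ_b²`.
Always `|Δ| ≥ |rd B ∪ uu(B)| ≥ |rd B| + |uu(B)| - |uu(C)|` (an element of `rd B ∩ uu(B)` is in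
`uu(C)`), `|uu(C)| ≤ |C|`, `|rd B| ≥ m - 1` (`card_le_rd`), `2 |uu(B)| ≥ m` (`card_le_two_mul_uu`).
* If `|C| ≤ 1`: `2 |Δ| ≥ 2 (m - 1) + m - 2`.
* Otherwise take `b₁ ≠ b₂` in `C`, `j₁ ≠ j₂`. Subtracting the two equations:
  `2 o' (j₂ - j₁) = j₂² - j₁² - δ₂² + δ₁²` is an integer.
  - If `2 o' = p` is an integer: `coincidences_le` with `q = 2`, `R = 2 m` (`q² R² = 16 m²`) gives
    `|C| ≤ T`, so `2 |Δ| ≥ 2 (m - 1) + m - 2 T`.
  - If `2 o'` is not an integer: `uu o ρ` is injective on `B` (`uu b = uu b'` gives `b = b'` or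
    `j + j' = 2 o'`), so `|uu(B)| = m`; `o' = p / q` with `q = 2 |j₂ - j₁| ≤ 4 m`, `q² R² ≤ 64 m⁴`, so
    `|C| ≤ T'` and `2 |Δ| ≥ 2 (m - 1) + 2 m - 2 T' ≥ 3 m - 2`. -/

namespace Pool.Agent.LargeDist.Sharp

open scoped Pointwise

theorem line_bound_sharp {B Δ : Finset ℝ} {o ρ : ℝ} (hρ : 0 < ρ) (h1 : rd B ⊆ Δ)
    (h2 : ∀ b ∈ B, uu o ρ b ∈ Δ) (T T' : ℕ)
    (hT : ∀ N : ℕ, 0 < N → N ≤ 16 * B.card ^ 2 → N.divisors.card ≤ T)
    (hT' : ∀ N : ℕ, 0 < N → N ≤ 64 * B.card ^ 4 → N.divisors.card ≤ T')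
    (hT2 : 2 * T' ≤ B.card) :
    3 * B.card ≤ 2 * Δ.card + 7 + 2 * T := by
  classical
  have hrd := Finset.card_le_card h1
  rcases Nat.lt_or_ge (3 * B.card) ((B - B).card + 7) with hlt | hge
  · have := card_sub_le B
    omega
  obtain ⟨a, g, hg, hj⟩ := freiman_sub B hge
  choose! j hj1 hj2 using hj
  have hg0 : g ≠ 0 := hg.ne'
  set m := B.card with hm
  set o' : ℝ := (o - a) / g with ho'
  set ρ' : ℝ := ρ / g with hρ'
  have hρ0 : 0 < ρ' := div_pos hρ hg
  have ho : o = a + o' * g := by rw [ho']; field_simp; ring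
  have hρe : ρ = ρ' * g := by rw [hρ']; field_simp
  have hjinj : ∀ b ∈ B, ∀ b' ∈ B, j b = j b' → b = b' := by
    intro b hb b' hb' h
    rw [hj2 b hb, hj2 b' hb', h]
  have huu : ∀ b ∈ B, uu o ρ b ^ 2 = g ^ 2 * (((j b : ℝ) - o') ^ 2 + ρ' ^ 2) := by
    intro b hb
    rw [uu_sq]
    have e : b - o = ((j b : ℝ) - o') * g := by
      rw [ho]
      have := hj2 b hb
      linarith
    rw [e, hρe]
    ring
  set C := B.filter (fun b => uu o ρ b ∈ rd B) with hC
  have hCB : ∀ b ∈ C, b ∈ B := fun b hb => (Finset.mem_filter.1 hb).1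
  have hCδ : ∀ b ∈ C, ∃ δ : ℤ, 0 < δ ∧ δ ≤ ((2 * m : ℕ) : ℤ) ∧
      ((j b : ℝ) - o') ^ 2 + ρ' ^ 2 = (δ : ℝ) ^ 2 := by
    intro b hb
    obtain ⟨hbB, hbr⟩ := Finset.mem_filter.1 hb
    obtain ⟨x, hx, y, hy, hxy, h⟩ := mem_rd.1 hbr
    have hjx := hj1 x hx
    have hjy := hj1 y hy
    have hne : (j x : ℤ) ≠ j y := by
      intro h'
      exact hxy (hjinj x hx y hy (by exact_mod_cast h'))
    refine ⟨|(j x : ℤ) - j y|, abs_pos.2 (sub_ne_zero.2 hne), ?_, ?_⟩
    · rw [abs_le]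
      push_cast
      constructor <;> omega
    · have e1 : uu o ρ b ^ 2 = (x - y) ^ 2 := by rw [← h, sq_abs]
      have e2 : x - y = ((j x : ℝ) - j y) * g := by
        have h3 := hj2 x hx
        have h4 := hj2 y hy
        linarith
      rw [huu b hbB, e2, mul_pow, mul_comm] at e1
      have e3 := mul_right_cancel₀ (pow_ne_zero 2 hg0) e1
      rw [e3]
      push_cast
      rw [sq_abs]
  have hinter : (rd B ∩ B.image (uu o ρ)).card ≤ C.card := by
    calc (rd B ∩ B.image (uu o ρ)).card ≤ (C.image (uu o ρ)).card := by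
          apply Finset.card_le_card
          intro t ht
          rw [Finset.mem_inter, Finset.mem_image] at ht
          obtain ⟨ht1, b, hb, rfl⟩ := ht
          exact Finset.mem_image_of_mem _ (Finset.mem_filter.2 ⟨hb, ht1⟩)
      _ ≤ C.card := Finset.card_image_le
  have hunion : (rd B ∪ B.image (uu o ρ)).card ≤ Δ.card := by
    apply Finset.card_le_card
    apply Finset.union_subset h1
    intro t ht
    obtain ⟨b, hb, rfl⟩ := Finset.mem_image.1 ht
    exact h2 b hb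
  have hsum := Finset.card_union_add_card_inter (rd B) (B.image (uu o ρ))
  have hE := card_le_two_mul_uu B o ρ
  have hD := card_le_rd B
  rcases Nat.lt_or_ge C.card 2 with hC1 | hC2
  · omega
  have hcardC : (C.image (fun b => (j b : ℤ))).card = C.card := by
    apply Finset.card_image_of_injOn
    intro b hb b' hb' h
    have h' : (j b : ℤ) = j b' := h
    exact hjinj b (hCB b hb) b' (hCB b' hb') (by exact_mod_cast h')
  by_cases hint : ∃ p : ℤ, 2 * o' = p
  · obtain ⟨p, hp⟩ := hint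
    have hle := coincidences_le (2 * m) 2 p (by norm_num) ρ' hρ0 T (fun N hN hN' =>
      hT N hN (hN'.trans (le_of_eq (by ring)))) (C.image (fun b => (j b : ℤ))) (by
        intro b' hb'
        obtain ⟨b, hb, rfl⟩ := Finset.mem_image.1 hb'
        obtain ⟨δ, d1, d2, d3⟩ := hCδ b hb
        refine ⟨δ, d1, d2, ?_⟩
        rw [← d3, ← hp]
        push_cast
        congr 2
        ring)
    rw [hcardC] at hle
    omega
  · obtain ⟨b₁, hb₁, b₂, hb₂, hne⟩ := Finset.one_lt_card.1 (show 1 < C.card by omega)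
    obtain ⟨δ₁, -, -, e₁⟩ := hCδ b₁ hb₁
    obtain ⟨δ₂, -, -, e₂⟩ := hCδ b₂ hb₂
    set d : ℤ := (j b₂ : ℤ) - j b₁ with hd
    have hd0 : d ≠ 0 := by
      intro h
      apply hne
      apply hjinj b₁ (hCB _ hb₁) b₂ (hCB _ hb₂)
      omega
    set P : ℤ := (j b₂ : ℤ) ^ 2 - (j b₁ : ℤ) ^ 2 - δ₂ ^ 2 + δ₁ ^ 2 with hP
    have hPd : 2 * o' * (d : ℝ) = P := by
      rw [hP, hd]
      push_cast
      nlinarith
    have hinj : (B.image (uu o ρ)).card = m := by
      apply Finset.card_image_of_injOn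
      intro b hb b' hb' h
      by_contra hbb
      apply hint
      refine ⟨(j b : ℤ) + j b', ?_⟩
      have h5 : uu o ρ b ^ 2 = uu o ρ b' ^ 2 := by rw [h]
      rw [huu b hb, huu b' hb'] at h5
      have h6 := mul_left_cancel₀ (pow_ne_zero 2 hg0) h5
      have h7 : ((j b : ℝ) - j b') * (2 * o' - (j b + j b')) = 0 := by linarith
      rcases mul_eq_zero.1 h7 with h8 | h8
      · exfalso
        apply hbb
        apply hjinj b hb b' hb'
        have : (j b : ℝ) = j b' := by linarith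
        exact_mod_cast this
      · push_cast
        linarith
    have hq0 : 0 < (2 * d).natAbs := Int.natAbs_pos.2 (by omega)
    have hsgn : ((2 * d).sign : ℝ) * (((2 * d).natAbs : ℕ) : ℝ) = 2 * d := by
      have h3 := Int.sign_mul_natAbs (2 * d)
      have h4 : (((2 * d).sign : ℤ) : ℝ) * ((((2 * d).natAbs : ℕ) : ℤ) : ℝ) =
          ((2 * d : ℤ) : ℝ) := by
        rw [← Int.cast_mul, h3]
      rw [Int.cast_natCast] at h4
      rw [h4]
      push_cast
      rfl
    have hop : o' = ((P * (2 * d).sign : ℤ) : ℝ) / (((2 * d).natAbs : ℕ) : ℝ) := by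
      have hqr : (((2 * d).natAbs : ℕ) : ℝ) ≠ 0 := by exact_mod_cast hq0.ne'
      have hs2 : ((2 * d).sign : ℝ) * ((2 * d).sign : ℝ) = 1 := by
        have h3 : (2 * d).sign * (2 * d).sign = 1 := by
          rcases lt_or_gt_of_ne (show 2 * d ≠ 0 by omega) with h | h
          · rw [Int.sign_eq_neg_one_of_neg h]; norm_num
          · rw [Int.sign_eq_one_of_pos h]; norm_num
        exact_mod_cast h3
      rw [eq_div_iff hqr]
      push_cast
      rw [← hPd]
      calc o' * (((2 * d).natAbs : ℕ) : ℝ) =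
            (((2 * d).sign : ℝ) * ((2 * d).sign : ℝ)) * (o' * (((2 * d).natAbs : ℕ) : ℝ)) := by
              rw [hs2, one_mul]
        _ = o' * (((2 * d).sign : ℝ) * (((2 * d).natAbs : ℕ) : ℝ)) * ((2 * d).sign : ℝ) := by ring
        _ = _ := by rw [hsgn]; ring
    have hq4 : (2 * d).natAbs ≤ 4 * m := by
      have h3 := hj1 b₁ (hCB _ hb₁)
      have h4 := hj1 b₂ (hCB _ hb₂)
      omega
    have hle := coincidences_le (2 * m) (2 * d).natAbs (P * (2 * d).sign) hq0 ρ' hρ0 T'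
      (fun N hN hN' => hT' N hN (hN'.trans (by
        calc (2 * d).natAbs ^ 2 * (2 * m) ^ 2 ≤ (4 * m) ^ 2 * (2 * m) ^ 2 :=
              Nat.mul_le_mul_right _ (Nat.pow_le_pow_left hq4 2)
          _ = 64 * m ^ 4 := by ring))) (C.image (fun b => (j b : ℤ))) (by
        intro b' hb'
        obtain ⟨b, hb, rfl⟩ := Finset.mem_image.1 hb'
        obtain ⟨δ, d1, d2, d3⟩ := hCδ b hb
        refine ⟨δ, d1, d2, ?_⟩
        rw [← hop, ← d3]
        push_cast
        rfl)
    rw [hcardC] at hle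
    omega

end Pool.Agent.LargeDist.Sharp
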