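import Pool.Agent.LargeDist.Dim3
import Pool.Agent.LargeDist.Sharp.LineSharp
import Pool.Agent.LargeDist.Sharp.DivUniform

set_option autoImplicit false

/-! # The upper bound

Proof. `f_three_le` (file `Dim3.lean`): `f 3 k ≤ 125 + M 3 k`, so it suffices that every set `A` with
`IsConeSet 3 k A` has `|A| ≤ 2 k / 3 + (1/2) exp (…) + …` as below. As in `cone_card_bound` (file
`Dim3.lean`) one gets `B ⊆ ℝ` with `|B| = |A| =: m`, `o`, `ρ > 0` with `rd B` and `uu o ρ (B)` inside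
`Δ = dists (insert y A)`, `|Δ| ≤ k`, and `m ≤ k + 1`. Let `m₀` be as in `divisors_half`. If `m < m₀`
we are done for large `k` (`m₀ ≤ 2 k / 3`). Otherwise take `T'` from `divisors_half` and `T` the
maximum of `d(N)` over `0 < N ≤ 16 (k + 1)²` (`T = ((Finset.Icc 1 (16 (k+1)²)).sup …)`; by
`divisors_uniform` with `a = 2`, `c = 16`, `ε / 2`:
`T ≤ exp ((2 log 2 + ε / 2) log k / log log k)` for large `k`), and `line_bound_sharp` gives
`3 m ≤ 2 k + 7 + 2 T`. So `f 3 k ≤ 125 + (2 k + 7 + 2 T) / 3`, and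
`128 + T ≤ exp ((log 4 + ε) log k / log log k)` for large `k` (`2 log 2 = log 4`,
`log k / log log k → ∞`). -/

namespace Pool.Agent.LargeDist.Sharp

open Finset Module

private theorem uf_cone_data {k : ℕ} {A : Finset (EuclideanSpace ℝ (Fin 3))}
    (hA : IsConeSet 3 k A) (hne : A.Nonempty) :
    ∃ (B Δ : Finset ℝ) (o ρ : ℝ), 0 < ρ ∧ rd B ⊆ Δ ∧ (∀ b ∈ B, uu o ρ b ∈ Δ) ∧
      B.card = A.card ∧ Δ.card ≤ k ∧ A.card ≤ k + 1 := by
  classical
  obtain ⟨hrank, y, hy, hk⟩ := hA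
  obtain ⟨h, hiso, hoff⟩ := exists_coord hne (by omega)
  obtain ⟨o, ρ, hρ, hdist⟩ := hoff y hy
  have hinj : Set.InjOn h (A : Set (EuclideanSpace ℝ (Fin 3))) := by
    intro x hx z hz hxz
    have h1 := hiso x hx z hz
    rw [hxz, sub_self, abs_zero] at h1
    exact dist_eq_zero.1 h1.symm
  have hBcard : (A.image h).card = A.card := Finset.card_image_of_injOn hinj
  have h1 : rd (A.image h) ⊆ dists (insert y A) := by
    intro t ht
    obtain ⟨x, hx, z, hz, hxz, rfl⟩ := mem_rd.1 ht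
    obtain ⟨a, ha, rfl⟩ := Finset.mem_image.1 hx
    obtain ⟨b, hb, rfl⟩ := Finset.mem_image.1 hz
    rw [hiso a ha b hb]
    exact mem_dists.2 ⟨a, Finset.mem_insert_of_mem ha, b, Finset.mem_insert_of_mem hb,
      fun h => hxz (by rw [h]), rfl⟩
  have h2 : ∀ b ∈ A.image h, uu o ρ b ∈ dists (insert y A) := by
    intro b hb
    obtain ⟨a, ha, rfl⟩ := Finset.mem_image.1 hb
    rw [← hdist a ha]
    refine mem_dists.2 ⟨a, Finset.mem_insert_of_mem ha, y, Finset.mem_insert_self _ _, ?_, rfl⟩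
    rintro rfl
    exact hy (subset_affineSpan ℝ _ ha)
  refine ⟨A.image h, dists (insert y A), o, ρ, hρ, h1, h2, hBcard, hk, ?_⟩
  have h3 := card_le_rd (A.image h)
  have h4 := Finset.card_le_card h1
  omega

/-- `log k / log log k` is eventually large -/
private theorem uf_large (C : ℝ) (hC : 0 < C) : ∃ k₀ : ℕ, ∀ k : ℕ, k₀ ≤ k →
    C ≤ Real.log k / Real.log (Real.log k) := by
  have h1 : ∀ᶠ x : ℝ in Filter.atTop, ‖Real.log x‖ ≤ C⁻¹ * ‖id x‖ :=
    Real.isLittleO_log_id_atTop.bound (inv_pos.2 hC)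
  have h2 : Filter.Tendsto (fun k : ℕ => Real.log (k : ℝ)) Filter.atTop Filter.atTop :=
    Real.tendsto_log_atTop.comp tendsto_natCast_atTop_atTop
  have h3 : ∀ᶠ k : ℕ in Filter.atTop, ‖Real.log (Real.log (k : ℝ))‖ ≤ C⁻¹ * ‖Real.log (k : ℝ)‖ :=
    h2.eventually h1
  have h4 : ∀ᶠ k : ℕ in Filter.atTop, (1 : ℝ) < Real.log (k : ℝ) :=
    h2.eventually (Filter.eventually_gt_atTop 1)
  obtain ⟨k₀, hk₀⟩ := Filter.eventually_atTop.1 (h3.and h4)
  refine ⟨k₀, fun k hk => ?_⟩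
  obtain ⟨h5, h6⟩ := hk₀ k hk
  have h7 : 0 < Real.log (Real.log (k : ℝ)) := Real.log_pos h6
  rw [Real.norm_of_nonneg h7.le, Real.norm_of_nonneg (by linarith)] at h5
  rw [le_div_iff₀ h7]
  calc C * Real.log (Real.log (k : ℝ)) ≤ C * (C⁻¹ * Real.log (k : ℝ)) :=
        mul_le_mul_of_nonneg_left h5 hC.le
    _ = Real.log (k : ℝ) := by field_simp

private theorem uf_max (X : ℕ) (hX : 1 ≤ X) : ∃ T : ℕ,
    (∀ N : ℕ, 0 < N → N ≤ X → N.divisors.card ≤ T) ∧
      ∃ N : ℕ, 0 < N ∧ N ≤ X ∧ T = N.divisors.card := by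
  obtain ⟨N, hN, hmax⟩ := Finset.exists_max_image (Finset.Icc 1 X) (fun N => N.divisors.card)
    ⟨1, Finset.mem_Icc.2 ⟨le_rfl, hX⟩⟩
  rw [Finset.mem_Icc] at hN
  refine ⟨N.divisors.card, fun M hM hMX => hmax M (Finset.mem_Icc.2 ⟨hM, hMX⟩), N, hN.1, hN.2,
    rfl⟩

theorem f_three_le_sharp {ε : ℝ} (hε : 0 < ε) : ∃ k₀ : ℕ, ∀ k : ℕ, k₀ ≤ k → ∃ n : ℕ,
    f 3 k ≤ (n : ℕ∞) ∧
      (n : ℝ) ≤ 2 * (k : ℝ) / 3 +
        Real.exp ((Real.log 4 + ε) * Real.log k / Real.log (Real.log k)) := by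
  classical
  obtain ⟨m₀, hm₀⟩ := divisors_half
  obtain ⟨k₁, hk₁⟩ := divisors_uniform (ε := ε / 2) (by positivity) 2 16 (by norm_num)
    (by norm_num)
  have hlog4 : Real.log 4 = 2 * Real.log 2 := by
    rw [show (4 : ℝ) = 2 ^ 2 by norm_num, Real.log_pow]; norm_num
  have hlog4pos : 0 < Real.log 4 := Real.log_pos (by norm_num)
  obtain ⟨k₂, hk₂⟩ := uf_large (max (Real.log 2 * 2 / ε) (Real.log 128 / Real.log 4) + 1)
    (by
      have : 0 ≤ Real.log 2 * 2 / ε := by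
        have := Real.log_nonneg (show (1 : ℝ) ≤ 2 by norm_num)
        positivity
      have h2 := le_max_left (Real.log 2 * 2 / ε) (Real.log 128 / Real.log 4)
      linarith)
  refine ⟨max (max k₁ k₂) (2 * m₀ + 1), fun k hk => ?_⟩
  have hkk₁ : k₁ ≤ k := le_trans (le_max_left _ _) (le_trans (le_max_left _ _) hk)
  have hkk₂ : k₂ ≤ k := le_trans (le_max_right _ _) (le_trans (le_max_left _ _) hk)
  have hkm : 2 * m₀ + 1 ≤ k := le_trans (le_max_right _ _) hk
  have hk1 : 1 ≤ k := by omega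
  obtain ⟨T, hTle, N₁, hN₁, hN₁X, hTN⟩ := uf_max (16 * (k + 1) ^ 2) (by nlinarith)
  have hTreal : (T : ℝ) ≤
      Real.exp ((2 * Real.log 2 + ε / 2) * Real.log k / Real.log (Real.log k)) := by
    have h0 := hk₁ k hkk₁ N₁ hN₁ hN₁X
    rw [hTN]
    exact_mod_cast h0
  -- cardinality of cone sets
  have hcard : ∀ A, IsConeSet 3 k A → 3 * A.card ≤ 2 * k + 7 + 2 * T := by
    intro A hA
    rcases A.eq_empty_or_nonempty with rfl | hne
    · simp
    obtain ⟨B, Δ, o, ρ, hρ, h1, h2, hB, hΔ, hAk⟩ := uf_cone_data hA hne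
    rcases Nat.lt_or_ge A.card m₀ with hlt | hge
    · omega
    obtain ⟨T', hT1, hT2⟩ := hm₀ A.card hge
    have hsq : A.card ^ 2 ≤ (k + 1) ^ 2 := Nat.pow_le_pow_left hAk 2
    have h3 := line_bound_sharp hρ h1 h2 T T'
      (by
        intro N hN hN2
        rw [hB] at hN2
        exact hTle N hN (by omega))
      (by
        intro N hN hN2
        rw [hB] at hN2
        exact hT2 N hN hN2)
      (by rw [hB]; exact hT1)
    rw [hB] at h3
    omega
  have hM : M 3 k ≤ (((2 * k + 7 + 2 * T) / 3 : ℕ) : ℕ∞) := by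
    unfold M
    apply iSup_le
    rintro ⟨A, hA⟩
    have h1 := hcard A hA
    have h2 : A.card ≤ (2 * k + 7 + 2 * T) / 3 := by omega
    exact_mod_cast h2
  refine ⟨125 + (2 * k + 7 + 2 * T) / 3, ?_, ?_⟩
  · refine (f_three_le k hk1).trans ?_
    have h3 : ((125 + (2 * k + 7 + 2 * T) / 3 : ℕ) : ℕ∞) =
        5 ^ 3 + (((2 * k + 7 + 2 * T) / 3 : ℕ) : ℕ∞) := by
      push_cast; norm_num
    rw [h3]
    exact add_le_add_right hM _
  · have hL := hk₂ k hkk₂
    set L : ℝ := Real.log k / Real.log (Real.log k) with hLdef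
    have e1 : (Real.log 4 + ε) * Real.log k / Real.log (Real.log k) = (Real.log 4 + ε) * L := by
      rw [hLdef]; ring
    have e2 : (2 * Real.log 2 + ε / 2) * Real.log k / Real.log (Real.log k) =
        (Real.log 4 + ε / 2) * L := by
      rw [hLdef, hlog4]; ring
    rw [e1]
    rw [e2] at hTreal
    have hL1 : Real.log 2 * 2 / ε ≤ L := by
      have := le_max_left (Real.log 2 * 2 / ε) (Real.log 128 / Real.log 4)
      linarith
    have hL2 : Real.log 128 / Real.log 4 ≤ L := by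
      have := le_max_right (Real.log 2 * 2 / ε) (Real.log 128 / Real.log 4)
      linarith
    have hL3 : Real.log 2 ≤ ε / 2 * L := by
      rw [div_le_iff₀ hε] at hL1
      linarith
    have hL4 : Real.log 128 ≤ Real.log 4 * L := by
      rw [div_le_iff₀ hlog4pos] at hL2
      linarith
    have hLpos : 0 ≤ L := by
      have : 0 ≤ Real.log 2 * 2 / ε := by
        have := Real.log_nonneg (show (1 : ℝ) ≤ 2 by norm_num)
        positivity
      linarith
    have hE2 : (2 : ℝ) ≤ Real.exp (ε / 2 * L) := by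
      calc (2 : ℝ) = Real.exp (Real.log 2) := (Real.exp_log (by norm_num)).symm
        _ ≤ _ := Real.exp_le_exp.2 hL3
    have hE128 : (128 : ℝ) ≤ Real.exp ((Real.log 4 + ε / 2) * L) := by
      calc (128 : ℝ) = Real.exp (Real.log 128) := (Real.exp_log (by norm_num)).symm
        _ ≤ _ := Real.exp_le_exp.2 (by nlinarith)
    have hsplit : Real.exp ((Real.log 4 + ε) * L) =
        Real.exp ((Real.log 4 + ε / 2) * L) * Real.exp (ε / 2 * L) := by
      rw [← Real.exp_add]; congr 1; ring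
    have hnn : 3 * ((2 * k + 7 + 2 * T) / 3) ≤ 2 * k + 7 + 2 * T := Nat.mul_div_le _ _
    have hnn' : 3 * (((2 * k + 7 + 2 * T) / 3 : ℕ) : ℝ) ≤ 2 * k + 7 + 2 * T := by
      exact_mod_cast hnn
    have hT0 : (0 : ℝ) ≤ T := Nat.cast_nonneg _
    have hfin : 128 + (T : ℝ) ≤ Real.exp ((Real.log 4 + ε) * L) := by
      rw [hsplit]
      nlinarith [Real.exp_pos ((Real.log 4 + ε / 2) * L)]
    push_cast
    linarith

end Pool.Agent.LargeDist.Sharp
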