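import Mathlib

set_option autoImplicit false

/-! # Atoms are subgroups (isoperimetric method, abelian groups)

Proof. Call a finite set `X` admissible if `X` is nonempty, `X ⊆ K` and `X - A` does not contain `K`.
As `0 ∈ A`, `X ⊆ X - A`, so `∂X := |X - A| - |X|` is a natural number. `A` is admissible (`hne`).
Let `κ` be the minimum of `∂X` over the admissible sets, `α` the smallest size of an admissible set
with `∂X = κ`, and `M` an admissible set with `∂M = κ`, `|M| = α`.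
(a) If `K` is finite and `X` is admissible with `∂X = κ`, then `|K| ≥ |X| + κ + α`. Let
`Y = {-g : g ∈ K, g ∉ X - A}`. `Y` is nonempty, `Y ⊆ K`, and `|Y| = |K| - |X - A| = |K| - |X| - κ`.
`Y - A ⊆ K` is disjoint from `-X` (if `-g - a = -x` then `g = x - a ∈ X - A`), so
`|Y - A| ≤ |K| - |X|` and `Y - A ≠ K`. So `Y` is admissible and `∂Y ≤ κ`, hence `∂Y = κ`, `|Y| ≥ α`.
(b) If `M, M'` are admissible with `∂ = κ` and size `α` and `M ∩ M' ≠ ∅` then `M = M'`: put
`I = M ∩ M'`, `U = M ∪ M'`, `|I| + |U| = 2α`. `U - A = (M - A) ∪ (M' - A)`,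
`I - A ⊆ (M - A) ∩ (M' - A)`, so `|I - A| + |U - A| ≤ 2α + 2κ`. Claim `|U - A| ≥ |U| + κ`: clear if
`U` is admissible; otherwise `K ⊆ U - A`, `K` is finite and by (a) (with `X = M`)
`|U - A| ≥ |K| ≥ 2α + κ ≥ |U| + κ`. So `|I - A| ≤ |I| + κ`; `I` is admissible, so `∂I = κ` and
`|I| ≥ α`, i.e. `I = M = M'`.
(c) Fix `x₀ ∈ M`, `M₀ = M - x₀ ∋ 0`. Translates of `M` by elements of `K` are again admissible with
the same `∂` and size. For `x ∈ M₀` the set `M₀ - x` contains `0 ∈ M₀`, so `M₀ - x = M₀` by (b): `M₀`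
is closed under subtraction and is (the carrier of) a finite subgroup `H ≤ K`. `Hs := M₀`. -/

namespace Pool.Agent.LargeDist.Sharp

open scoped Pointwise

private def Adm {Γ : Type*} [AddCommGroup Γ] [DecidableEq Γ] (A : Finset Γ) (K : AddSubgroup Γ)
    (X : Finset Γ) : Prop :=
  X.Nonempty ∧ (∀ x ∈ X, x ∈ K) ∧ ∃ g ∈ K, g ∉ X - A

private theorem sub_self_le {Γ : Type*} [AddCommGroup Γ] [DecidableEq Γ] (A : Finset Γ)
    (h0 : (0 : Γ) ∈ A) (X : Finset Γ) : X.card ≤ (X - A).card := by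
  apply Finset.card_le_card
  intro x hx
  exact Finset.mem_sub.mpr ⟨x, hx, 0, h0, sub_zero x⟩

private theorem sub_in {Γ : Type*} [AddCommGroup Γ] [DecidableEq Γ] (A : Finset Γ)
    (K : AddSubgroup Γ) (hAK : ∀ a ∈ A, a ∈ K) (X : Finset Γ) (hX : ∀ x ∈ X, x ∈ K) :
    ∀ g ∈ X - A, g ∈ K := by
  intro g hg
  obtain ⟨x, hx, a, ha, rfl⟩ := Finset.mem_sub.mp hg
  exact K.sub_mem (hX x hx) (hAK a ha)

/-- step (a) -/
private theorem stepA {Γ : Type*} [AddCommGroup Γ] [DecidableEq Γ] (A : Finset Γ)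
    (K : AddSubgroup Γ) (hAK : ∀ a ∈ A, a ∈ K) (κ α : ℕ)
    (hκ : ∀ X : Finset Γ, Adm A K X → X.card + κ ≤ (X - A).card)
    (hα : ∀ X : Finset Γ, Adm A K X → (X - A).card = X.card + κ → α ≤ X.card)
    (Kf : Finset Γ) (hKf : ∀ x, x ∈ Kf ↔ x ∈ K)
    (X : Finset Γ) (hX : Adm A K X) (hXκ : (X - A).card = X.card + κ) :
    X.card + κ + α ≤ Kf.card := by
  obtain ⟨hXne, hXK, g0, hg0, hg0'⟩ := hX
  have hsub : X - A ⊆ Kf := fun g hg => (hKf g).2 (sub_in A K hAK X hXK g hg)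
  have hXKf : X ⊆ Kf := fun g hg => (hKf g).2 (hXK g hg)
  set Y : Finset Γ := (Kf \ (X - A)).image (fun g => -g) with hY
  have hYcard : Y.card = Kf.card - (X - A).card := by
    rw [hY, Finset.card_image_of_injective _ neg_injective, Finset.card_sdiff_of_subset hsub]
  have hle : (X - A).card ≤ Kf.card := Finset.card_le_card hsub
  have hYne : Y.Nonempty := ⟨-g0, Finset.mem_image.mpr ⟨g0, Finset.mem_sdiff.mpr
    ⟨(hKf g0).2 hg0, hg0'⟩, rfl⟩⟩
  have hYK : ∀ y ∈ Y, y ∈ K := by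
    intro y hy
    obtain ⟨g, hg, rfl⟩ := Finset.mem_image.mp hy
    exact K.neg_mem ((hKf g).1 (Finset.mem_sdiff.mp hg).1)
  have hnot : ∀ x ∈ X, -x ∉ Y - A := by
    intro x hx hmem
    obtain ⟨y, hy, a, ha, hya⟩ := Finset.mem_sub.mp hmem
    obtain ⟨g, hg, rfl⟩ := Finset.mem_image.mp hy
    apply (Finset.mem_sdiff.mp hg).2
    refine Finset.mem_sub.mpr ⟨x, hx, a, ha, ?_⟩
    have : g = -(-g - a) - a := by abel
    rw [this, hya]
    abel
  have hYsub : Y - A ⊆ Kf \ (X.image (fun g => -g)) := by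
    intro z hz
    refine Finset.mem_sdiff.mpr ⟨(hKf z).2 (sub_in A K hAK Y hYK z hz), ?_⟩
    intro hz'
    obtain ⟨x, hx, rfl⟩ := Finset.mem_image.mp hz'
    exact hnot x hx hz
  have himg : X.image (fun g => -g) ⊆ Kf := by
    intro z hz
    obtain ⟨x, hx, rfl⟩ := Finset.mem_image.mp hz
    exact (hKf _).2 (K.neg_mem (hXK x hx))
  have hYAcard : (Y - A).card ≤ Kf.card - X.card := by
    have h1 := Finset.card_le_card hYsub
    rw [Finset.card_sdiff_of_subset himg, Finset.card_image_of_injective _ neg_injective] at h1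
    exact h1
  obtain ⟨x0, hx0⟩ := hXne
  have hYadm : Adm A K Y := ⟨hYne, hYK, -x0, K.neg_mem (hXK x0 hx0), hnot x0 hx0⟩
  have h2 := hκ Y hYadm
  have h3 : (Y - A).card = Y.card + κ := by omega
  have h4 := hα Y hYadm h3
  omega

/-- step (b) -/
private theorem stepB {Γ : Type*} [AddCommGroup Γ] [DecidableEq Γ] (A : Finset Γ)
    (K : AddSubgroup Γ) (hAK : ∀ a ∈ A, a ∈ K) (κ α : ℕ)
    (hκ : ∀ X : Finset Γ, Adm A K X → X.card + κ ≤ (X - A).card)
    (hα : ∀ X : Finset Γ, Adm A K X → (X - A).card = X.card + κ → α ≤ X.card)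
    (M M' : Finset Γ) (hM : Adm A K M) (hM' : Adm A K M')
    (hMκ : (M - A).card = M.card + κ) (hMκ' : (M' - A).card = M'.card + κ)
    (hMα : M.card = α) (hMα' : M'.card = α) (hI : (M ∩ M').Nonempty) : M = M' := by
  have h1 := Finset.card_union_add_card_inter (M - A) (M' - A)
  have h2 := Finset.card_union_add_card_inter M M'
  have hU : (M ∪ M') - A = (M - A) ∪ (M' - A) := Finset.union_sub
  have hIs : (M ∩ M') - A ⊆ (M - A) ∩ (M' - A) := Finset.inter_sub_subset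
  have h3 := Finset.card_le_card hIs
  have hIadm : Adm A K (M ∩ M') := by
    obtain ⟨_, hMK, g, hg, hg'⟩ := hM
    refine ⟨hI, fun x hx => hMK x (Finset.mem_inter.mp hx).1, g, hg, fun h => hg' ?_⟩
    exact (Finset.mem_inter.mp (hIs h)).1
  have hUge : (M ∪ M').card + κ ≤ ((M ∪ M') - A).card := by
    by_cases hUadm : Adm A K (M ∪ M')
    · exact hκ _ hUadm
    · have hUne : (M ∪ M').Nonempty := by
        obtain ⟨x, hx⟩ := hI
        exact ⟨x, Finset.mem_union_left _ (Finset.mem_inter.mp hx).1⟩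
      have hUK : ∀ x ∈ M ∪ M', x ∈ K := by
        intro x hx
        rcases Finset.mem_union.mp hx with h | h
        · exact hM.2.1 x h
        · exact hM'.2.1 x h
      have hall : ∀ g ∈ K, g ∈ (M ∪ M') - A := by
        intro g hg
        by_contra hcon
        exact hUadm ⟨hUne, hUK, g, hg, hcon⟩
      have hKf : ∀ x, x ∈ (M ∪ M') - A ↔ x ∈ K :=
        fun x => ⟨fun hx => sub_in A K hAK _ hUK x hx, fun hx => hall x hx⟩
      have h5 := stepA A K hAK κ α hκ hα _ hKf M hM hMκ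
      omega
  rw [hU] at hUge
  have h6 := hκ _ hIadm
  have h7 : ((M ∩ M') - A).card = (M ∩ M').card + κ := by omega
  have h8 := hα _ hIadm h7
  have h9 : M ∩ M' = M :=
    Finset.eq_of_subset_of_card_le Finset.inter_subset_left (by omega)
  have h10 : M ∩ M' = M' :=
    Finset.eq_of_subset_of_card_le Finset.inter_subset_right (by omega)
  exact h9.symm.trans h10

private theorem shift_sub {Γ : Type*} [AddCommGroup Γ] [DecidableEq Γ] (A M : Finset Γ) (x : Γ) :
    M.image (fun y => y - x) - A = (M - A).image (fun y => y - x) := by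
  ext z
  simp only [Finset.mem_sub, Finset.mem_image]
  constructor
  · rintro ⟨_, ⟨y, hy, rfl⟩, a, ha, rfl⟩
    exact ⟨y - a, ⟨y, hy, a, ha, rfl⟩, by abel⟩
  · rintro ⟨_, ⟨y, hy, a, ha, rfl⟩, rfl⟩
    exact ⟨y - x, ⟨y, hy, rfl⟩, a, ha, by abel⟩

private theorem shift_adm {Γ : Type*} [AddCommGroup Γ] [DecidableEq Γ] (A : Finset Γ)
    (K : AddSubgroup Γ) (M : Finset Γ) (hM : Adm A K M) (x : Γ) (hx : x ∈ K) :
    Adm A K (M.image (fun y => y - x)) := by
  obtain ⟨hne, hMK, g, hg, hg'⟩ := hM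
  refine ⟨hne.image _, ?_, g - x, K.sub_mem hg hx, ?_⟩
  · intro z hz
    obtain ⟨y, hy, rfl⟩ := Finset.mem_image.mp hz
    exact K.sub_mem (hMK y hy) hx
  · rw [shift_sub]
    intro hmem
    obtain ⟨y, hy, hyg⟩ := Finset.mem_image.mp hmem
    have : y = g := by simpa using hyg
    exact hg' (this ▸ hy)

theorem exists_atom {Γ : Type*} [AddCommGroup Γ] [DecidableEq Γ] (A : Finset Γ) (h0 : (0 : Γ) ∈ A)
    (K : AddSubgroup Γ) (hAK : ∀ a ∈ A, a ∈ K) (hne : ∃ g ∈ K, g ∉ A - A) :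
    ∃ (H : AddSubgroup Γ) (Hs : Finset Γ), (∀ x, x ∈ Hs ↔ x ∈ H) ∧ H ≤ K ∧
      (∃ g ∈ K, g ∉ Hs - A) ∧
      ∀ X : Finset Γ, X.Nonempty → (∀ x ∈ X, x ∈ K) → (∃ g ∈ K, g ∉ X - A) →
        X.card + (Hs - A).card ≤ (X - A).card + Hs.card := by
  classical
  have hAadm : Adm A K A := ⟨⟨0, h0⟩, hAK, hne⟩
  have hex : ∃ n : ℕ, ∃ X : Finset Γ, Adm A K X ∧ (X - A).card = X.card + n := by
    refine ⟨(A - A).card - A.card, A, hAadm, ?_⟩
    have := sub_self_le A h0 A
    omega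
  obtain ⟨κ, ⟨X1, hX1, hX1κ⟩, hκmin⟩ : ∃ κ : ℕ, (∃ X : Finset Γ, Adm A K X ∧
      (X - A).card = X.card + κ) ∧ ∀ n : ℕ, (∃ X : Finset Γ, Adm A K X ∧
      (X - A).card = X.card + n) → κ ≤ n :=
    ⟨Nat.find hex, Nat.find_spec hex, fun n hn => Nat.find_min' hex hn⟩
  have hκ : ∀ X : Finset Γ, Adm A K X → X.card + κ ≤ (X - A).card := by
    intro X hX
    have h1 := sub_self_le A h0 X
    have h2 := hκmin ((X - A).card - X.card) ⟨X, hX, by omega⟩
    omega
  have hex2 : ∃ n : ℕ, ∃ X : Finset Γ, Adm A K X ∧ (X - A).card = X.card + κ ∧ X.card = n :=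
    ⟨X1.card, X1, hX1, hX1κ, rfl⟩
  obtain ⟨α, ⟨M, hM, hMκ, hMα⟩, hαmin⟩ : ∃ α : ℕ, (∃ X : Finset Γ, Adm A K X ∧
      (X - A).card = X.card + κ ∧ X.card = α) ∧ ∀ n : ℕ, (∃ X : Finset Γ, Adm A K X ∧
      (X - A).card = X.card + κ ∧ X.card = n) → α ≤ n :=
    ⟨Nat.find hex2, Nat.find_spec hex2, fun n hn => Nat.find_min' hex2 hn⟩
  have hα : ∀ X : Finset Γ, Adm A K X → (X - A).card = X.card + κ → α ≤ X.card :=
    fun X hX hXκ => hαmin _ ⟨X, hX, hXκ, rfl⟩
  obtain ⟨x0, hx0⟩ := hM.1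
  have hx0K : x0 ∈ K := hM.2.1 x0 hx0
  have hinj : ∀ x : Γ, Function.Injective (fun y : Γ => y - x) := fun x => sub_left_injective
  set M0 : Finset Γ := M.image (fun y => y - x0) with hM0
  have hM0adm : Adm A K M0 := shift_adm A K M hM x0 hx0K
  have hM0card : M0.card = α := by
    rw [hM0, Finset.card_image_of_injective _ (hinj x0), hMα]
  have hM0κ : (M0 - A).card = M0.card + κ := by
    rw [hM0, shift_sub, Finset.card_image_of_injective _ (hinj x0),
      Finset.card_image_of_injective _ (hinj x0), hMκ]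
  have h0M0 : (0 : Γ) ∈ M0 := Finset.mem_image.mpr ⟨x0, hx0, sub_self x0⟩
  have hclosed : ∀ x ∈ M0, ∀ y ∈ M0, y - x ∈ M0 := by
    intro x hx y hy
    have hxK : x ∈ K := hM0adm.2.1 x hx
    have hadm := shift_adm A K M0 hM0adm x hxK
    have hcard : (M0.image (fun y => y - x)).card = α := by
      rw [Finset.card_image_of_injective _ (hinj x), hM0card]
    have hκ' : (M0.image (fun y => y - x) - A).card = (M0.image (fun y => y - x)).card + κ := by
      rw [shift_sub, Finset.card_image_of_injective _ (hinj x),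
        Finset.card_image_of_injective _ (hinj x), hM0κ]
    have hI : (M0 ∩ M0.image (fun y => y - x)).Nonempty :=
      ⟨0, Finset.mem_inter.mpr ⟨h0M0, Finset.mem_image.mpr ⟨x, hx, sub_self x⟩⟩⟩
    have heq := stepB A K hAK κ α hκ hα M0 _ hM0adm hadm hM0κ hκ' hM0card hcard hI
    rw [heq]
    exact Finset.mem_image.mpr ⟨y, hy, rfl⟩
  have hneg : ∀ x ∈ M0, -x ∈ M0 := by
    intro x hx
    have := hclosed x hx 0 h0M0
    rwa [zero_sub] at this
  have hadd : ∀ x y : Γ, x ∈ M0 → y ∈ M0 → x + y ∈ M0 := by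
    intro x y hx hy
    have := hclosed (-y) (hneg y hy) x hx
    rwa [sub_neg_eq_add] at this
  refine ⟨{ carrier := {x | x ∈ M0}, add_mem' := fun {x y} hx hy => hadd x y hx hy,
            zero_mem' := h0M0, neg_mem' := fun {x} hx => hneg x hx }, M0, ?_, ?_, ?_, ?_⟩
  · intro x
    exact Iff.rfl
  · intro x hx
    exact hM0adm.2.1 x hx
  · exact hM0adm.2.2
  · intro X hXne hXK hXg
    have := hκ X ⟨hXne, hXK, hXg⟩
    omega

end Pool.Agent.LargeDist.Sharp
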