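import Mathlib

set_option autoImplicit false

/-! # A parametric bound for the number of divisors

Proof. `d(N) = ∏_{p ∣ N} (a_p + 1)`, `a_p = N.factorization p` (`Nat.card_divisors`). For every `p`:
`2 ^ a_p ≤ N`, so `a_p ≤ log N / log 2` and `a_p + 1 ≤ 3 log N` if `log N ≥ 1`
(`log 2 ≥ 0.69`). The primes `p ∣ N` with `p ≤ y` are at most `y` in number and contribute at most
`(3 log N) ^ y` (real power; the base is `≥ 1`). For the primes `p > y`: `a_p + 1 ≤ 2 ^ a_p` and
`∑_{p > y} a_p log y ≤ ∑_p a_p log p = log N`, so they contribute at most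
`2 ^ (∑_{p > y} a_p) ≤ exp (log 2 * log N / log y)`. -/

namespace Pool.Agent.LargeDist.Sharp

theorem divisors_param (N : ℕ) (hN : 1 ≤ Real.log N) (y : ℝ) (hy : 1 < y) :
    (N.divisors.card : ℝ) ≤
      Real.exp (y * Real.log (3 * Real.log N) + Real.log 2 * Real.log N / Real.log y) := by
  have hN0 : N ≠ 0 := by
    rintro rfl
    norm_num at hN
  have hl2 : 0 < Real.log 2 := Real.log_pos (by norm_num)
  have hly : 0 < Real.log y := Real.log_pos hy
  have hL : 0 ≤ Real.log (3 * Real.log N) := Real.log_nonneg (by linarith)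
  have hsum : Real.log N = ∑ p ∈ N.primeFactors, (N.factorization p : ℝ) * Real.log p := by
    rw [Real.log_nat_eq_sum_factorization]
    rfl
  have hnn : ∀ p ∈ N.primeFactors, 0 ≤ (N.factorization p : ℝ) * Real.log p := fun p _ =>
    mul_nonneg (Nat.cast_nonneg _) (Real.log_natCast_nonneg p)
  have hprod : (N.divisors.card : ℝ) =
      ∏ p ∈ N.primeFactors, ((N.factorization p : ℝ) + 1) := by
    rw [Nat.card_divisors hN0]
    push_cast
    rfl
  have hpos : 0 < (N.divisors.card : ℝ) := by
    rw [hprod]
    exact Finset.prod_pos fun p _ => by positivity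
  rw [← Real.log_le_iff_le_exp hpos, hprod, Real.log_prod fun p _ => by positivity]
  have hterm : ∀ p ∈ N.primeFactors, Real.log ((N.factorization p : ℝ) + 1) ≤
      (if (p : ℝ) ≤ y then Real.log (3 * Real.log N) else 0) +
        Real.log 2 / Real.log y * ((N.factorization p : ℝ) * Real.log p) := by
    intro p hp
    have hpp := Nat.prime_of_mem_primeFactors hp
    have h2p : Real.log 2 ≤ Real.log p :=
      Real.log_le_log (by norm_num) (by exact_mod_cast hpp.two_le)
    have hle : (N.factorization p : ℝ) * Real.log p ≤ Real.log N := by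
      rw [hsum]
      exact Finset.single_le_sum hnn hp
    have ha0 : (0 : ℝ) ≤ N.factorization p := Nat.cast_nonneg _
    by_cases h : (p : ℝ) ≤ y
    · rw [if_pos h]
      have h1 : (N.factorization p : ℝ) * Real.log 2 ≤ Real.log N :=
        (mul_le_mul_of_nonneg_left h2p ha0).trans hle
      have h2 : (0.69 : ℝ) < Real.log 2 := lt_trans (by norm_num) Real.log_two_gt_d9
      have h3 : (N.factorization p : ℝ) * 0.69 ≤ Real.log N :=
        (mul_le_mul_of_nonneg_left h2.le ha0).trans h1
      have h4 : Real.log ((N.factorization p : ℝ) + 1) ≤ Real.log (3 * Real.log N) :=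
        Real.log_le_log (by positivity) (by linarith)
      have h5 : 0 ≤ Real.log 2 / Real.log y * ((N.factorization p : ℝ) * Real.log p) :=
        mul_nonneg (div_nonneg hl2.le hly.le) (hnn p hp)
      linarith
    · rw [if_neg h, zero_add]
      push Not at h
      have h1 : Real.log y ≤ Real.log p := Real.log_le_log (by linarith) h.le
      have h2 : ((N.factorization p : ℝ) + 1) ≤ 2 ^ (N.factorization p) := by
        exact_mod_cast Nat.lt_two_pow_self (n := N.factorization p)
      have h3 : Real.log ((N.factorization p : ℝ) + 1) ≤ N.factorization p * Real.log 2 := by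
        rw [← Real.log_pow]
        exact Real.log_le_log (by positivity) h2
      refine h3.trans ?_
      have h4 : Real.log 2 / Real.log y * ((N.factorization p : ℝ) * Real.log p) =
          (N.factorization p * Real.log 2) * (Real.log p / Real.log y) := by ring
      rw [h4]
      have h5 : 1 ≤ Real.log p / Real.log y := by
        rw [le_div_iff₀ hly]
        linarith
      have h6 : 0 ≤ (N.factorization p : ℝ) * Real.log 2 := mul_nonneg ha0 hl2.le
      nlinarith
  refine (Finset.sum_le_sum hterm).trans ?_
  rw [Finset.sum_add_distrib, ← Finset.mul_sum, ← hsum, ← Finset.sum_filter, Finset.sum_const,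
    nsmul_eq_mul]
  have hcard : ((N.primeFactors.filter fun p : ℕ => (p : ℝ) ≤ y).card : ℝ) ≤ y := by
    have h1 : (N.primeFactors.filter fun p : ℕ => (p : ℝ) ≤ y) ⊆ Finset.Icc 1 ⌊y⌋₊ := by
      intro p hp
      rw [Finset.mem_filter] at hp
      rw [Finset.mem_Icc]
      exact ⟨(Nat.prime_of_mem_primeFactors hp.1).one_lt.le, Nat.le_floor hp.2⟩
    have h2 := Finset.card_le_card h1
    rw [Nat.card_Icc, Nat.add_sub_cancel] at h2
    exact (Nat.cast_le.2 h2).trans (Nat.floor_le (by linarith))
  have h7 : Real.log 2 / Real.log y * Real.log N = Real.log 2 * Real.log N / Real.log y := by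
    ring
  rw [h7]
  have := mul_le_mul_of_nonneg_right hcard hL
  linarith

end Pool.Agent.LargeDist.Sharp
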