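import Pool.Agent.LargeDist.Sharp.Atom

set_option autoImplicit false

/-! # Kneser's theorem for difference sets

Proof. Let `K` be the subgroup generated by `A`, `n = |A|`. If `K ⊆ A - A` take the first
alternative. Otherwise `exists_atom` gives `H` (finite, elements `Hs`, `h = |Hs|`). Let
`π : Γ → Γ ⧸ H`, `u = |π(A)|`, `v = |π(A - A)|`.
* `Hs - A` is the union of the `u` cosets `-c`, `c ∈ π(A)`, so `|Hs - A| = u h`. Applying the last
  property to `X = A` gives `n + u h ≤ |A - A| + h ≤ 2 n - 2 + h`, i.e. `(u - 1) h + 2 ≤ n`.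
* `u ≥ 2`: `u ≥ 1` since `0 ∈ A`; if `u = 1` then `A ⊆ H`, so `K ≤ H`, and `Hs - A ⊇ Hs` (`0 ∈ A`)
  contains `K`, contradiction.
* For a class `c` let `A_c = A.filter (π · = c)`, `|A_c| ≤ h` (translate into `H`). For `c ≠ c'` in
  `π(A)`: `n ≤ |A_c| + |A_c'| + (u - 2) h`, so `|A_c| + |A_c'| ≥ h + 2`. In particular some class has
  `2 |A_c| ≥ h + 2` (this uses `u ≥ 2`).
* `A - A` is a union of cosets of `H`: let `x, y ∈ A`, `g ∈ H`; claim `x - y + g ∈ A - A`. If
  `π x ≠ π y` the sets `A_{πx}` and `(x - y + g) + A_{πy}` lie in the same coset (of size `h`) and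
  `|A_{πx}| + |A_{πy}| > h`, so they meet. If `π x = π y` take a class `c` with `2 |A_c| > h`: `A_c`
  and `(x - y + g) + A_c` meet. So `|A - A| = v h`.
* `X = A + Hs` (size `u h`, `⊆ K`) satisfies `X - A = (A - A) + Hs = A - A`, which does not contain
  `K`. So `u h + u h ≤ v h + h`, i.e. `2 u ≤ v + 1` (`h ≥ 1`). -/

namespace Pool.Agent.LargeDist.Sharp

open scoped Pointwise Classical

section
variable {Γ : Type} [AddCommGroup Γ] {H : AddSubgroup Γ} {Hs : Finset Γ}

private theorem KneserSub_mk_eq {x y : Γ} :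
    (QuotientAddGroup.mk x : Γ ⧸ H) = QuotientAddGroup.mk y ↔ -x + y ∈ H :=
  QuotientAddGroup.eq

private theorem KneserSub_class (hHs : ∀ x, x ∈ Hs ↔ x ∈ H) (S : Finset Γ) (c : Γ ⧸ H)
    (hS : ∀ x ∈ S, (QuotientAddGroup.mk x : Γ ⧸ H) = c) : S.card ≤ Hs.card := by
  rcases S.eq_empty_or_nonempty with rfl | ⟨s, hs⟩
  · simp
  refine Finset.card_le_card_of_injOn (fun x => -s + x) (fun x hx => ?_)
    (fun _ _ _ _ h => add_left_cancel h)
  exact Finset.mem_coe.2 ((hHs _).2 (KneserSub_mk_eq.1 ((hS s hs).trans (hS x hx).symm)))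

private theorem KneserSub_fiber (hHs : ∀ x, x ∈ Hs ↔ x ∈ H) (S : Finset Γ) (c : Γ ⧸ H) :
    (S.filter (fun a => (QuotientAddGroup.mk a : Γ ⧸ H) = c)).card ≤ Hs.card :=
  KneserSub_class hHs _ c fun x hx => (Finset.mem_filter.1 hx).2

private theorem KneserSub_sat (hHs : ∀ x, x ∈ Hs ↔ x ∈ H) (S : Finset Γ)
    (hS : ∀ x ∈ S, ∀ g ∈ H, x + g ∈ S) :
    S.card = (S.image (QuotientAddGroup.mk : Γ → Γ ⧸ H)).card * Hs.card := by
  rw [Finset.card_eq_sum_card_image (QuotientAddGroup.mk : Γ → Γ ⧸ H) S]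
  refine Finset.sum_const_nat fun c hc => ?_
  obtain ⟨s, hs, rfl⟩ := Finset.mem_image.1 hc
  refine le_antisymm (KneserSub_fiber hHs S _) ?_
  refine Finset.card_le_card_of_injOn (fun x => s + x) (fun x hx => ?_)
    (fun _ _ _ _ h => add_left_cancel h)
  have hx' : x ∈ H := (hHs x).1 hx
  refine Finset.mem_coe.2 (Finset.mem_filter.2 ⟨hS s hs x hx', ?_⟩)
  exact (KneserSub_mk_eq.2 (by simpa using hx')).symm

end

theorem kneser_sub {Γ : Type} [AddCommGroup Γ] (A : Finset Γ) (h0 : (0 : Γ) ∈ A)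
    (hsmall : (A - A).card + 2 ≤ 2 * A.card) :
    (∀ x ∈ AddSubgroup.closure (A : Set Γ), x ∈ A - A) ∨
    ∃ (H : AddSubgroup Γ) (h : ℕ), 1 ≤ h ∧
      (∀ c : Γ ⧸ H, (A.filter (fun a => (QuotientAddGroup.mk a : Γ ⧸ H) = c)).card ≤ h) ∧
      2 ≤ (A.image (QuotientAddGroup.mk : Γ → Γ ⧸ H)).card ∧
      (A - A).card = ((A - A).image (QuotientAddGroup.mk : Γ → Γ ⧸ H)).card * h ∧
      2 * (A.image (QuotientAddGroup.mk : Γ → Γ ⧸ H)).card ≤
        ((A - A).image (QuotientAddGroup.mk : Γ → Γ ⧸ H)).card + 1 := by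
  by_cases hK : ∀ x ∈ AddSubgroup.closure (A : Set Γ), x ∈ A - A
  · exact Or.inl hK
  right
  push Not at hK
  have hAK : ∀ a ∈ A, a ∈ AddSubgroup.closure (A : Set Γ) := fun a ha =>
    AddSubgroup.subset_closure ha
  obtain ⟨H, Hs, hHs, hHK, ⟨g0, hg0K, hg0⟩, hatom⟩ := exists_atom A h0 _ hAK hK
  have hh1 : 1 ≤ Hs.card := Finset.card_pos.2 ⟨0, (hHs 0).2 H.zero_mem⟩
  have hA0 : A.Nonempty := ⟨0, h0⟩
  -- the size of `Hs - A`
  have e1 : (Hs - A).card = (A.image (QuotientAddGroup.mk : Γ → Γ ⧸ H)).card * Hs.card := by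
    rw [KneserSub_sat hHs (Hs - A) (by
      intro x hx g hg
      obtain ⟨k, hk, a, ha, rfl⟩ := Finset.mem_sub.1 hx
      have : k - a + g = (k + g) - a := by abel
      rw [this]
      exact Finset.sub_mem_sub ((hHs _).2 (H.add_mem ((hHs _).1 hk) hg)) ha)]
    congr 1
    have e2 : (Hs - A).image (QuotientAddGroup.mk : Γ → Γ ⧸ H) =
        (A.image (QuotientAddGroup.mk : Γ → Γ ⧸ H)).image (fun c => -c) := by
      ext c
      simp only [Finset.mem_image]
      constructor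
      · rintro ⟨x, hx, rfl⟩
        obtain ⟨k, hk, a, ha, rfl⟩ := Finset.mem_sub.1 hx
        refine ⟨_, ⟨a, ha, rfl⟩, ?_⟩
        rw [← QuotientAddGroup.mk_neg, KneserSub_mk_eq]
        have : - -a + (k - a) = k := by abel
        rw [this]
        exact (hHs k).1 hk
      · rintro ⟨_, ⟨a, ha, rfl⟩, rfl⟩
        refine ⟨0 - a, Finset.sub_mem_sub ((hHs 0).2 H.zero_mem) ha, ?_⟩
        rw [zero_sub, QuotientAddGroup.mk_neg]
    rw [e2]
    exact Finset.card_image_of_injective _ neg_injective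
  have e3 := hatom A hA0 hAK hK
  rw [e1] at e3
  -- notation
  set u := (A.image (QuotientAddGroup.mk : Γ → Γ ⧸ H)).card with hu
  set h := Hs.card with hh
  have e4 : u * h + 2 ≤ A.card + h := by omega
  have hu1 : 1 ≤ u := Finset.card_pos.2 (hA0.image _)
  have hu2 : 2 ≤ u := by
    by_contra hlt
    have h1 : u = 1 := by omega
    obtain ⟨c, hc⟩ := Finset.card_eq_one.1 (hu.symm.trans h1)
    have h2 : ∀ a ∈ A, a ∈ H := by
      intro a ha
      have h3 : (QuotientAddGroup.mk a : Γ ⧸ H) = c :=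
        Finset.mem_singleton.1 (hc ▸ Finset.mem_image_of_mem _ ha)
      have h4 : (QuotientAddGroup.mk (0 : Γ) : Γ ⧸ H) = c :=
        Finset.mem_singleton.1 (hc ▸ Finset.mem_image_of_mem _ h0)
      simpa using KneserSub_mk_eq.1 (h4.trans h3.symm)
    have h5 : g0 ∈ H := (AddSubgroup.closure_le H).2 (fun a ha => h2 a ha) hg0K
    apply hg0
    have h6 := Finset.sub_mem_sub ((hHs g0).2 h5) h0
    simpa using h6
  -- two classes together have more than `h` elements
  have hn := Finset.card_eq_sum_card_image (QuotientAddGroup.mk : Γ → Γ ⧸ H) A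
  have e5 : ∀ c ∈ A.image (QuotientAddGroup.mk : Γ → Γ ⧸ H),
      ∀ c' ∈ A.image (QuotientAddGroup.mk : Γ → Γ ⧸ H), c ≠ c' →
      h + 2 ≤ (A.filter (fun a => (QuotientAddGroup.mk a : Γ ⧸ H) = c)).card +
        (A.filter (fun a => (QuotientAddGroup.mk a : Γ ⧸ H) = c')).card := by
    intro c hc c' hc' hne
    have hc'' : c' ∈ (A.image (QuotientAddGroup.mk : Γ → Γ ⧸ H)).erase c :=
      Finset.mem_erase.2 ⟨hne.symm, hc'⟩
    rw [← Finset.add_sum_erase _ _ hc, ← Finset.add_sum_erase _ _ hc''] at hn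
    have h1 : ∑ x ∈ ((A.image (QuotientAddGroup.mk : Γ → Γ ⧸ H)).erase c).erase c',
        (A.filter (fun a => (QuotientAddGroup.mk a : Γ ⧸ H) = x)).card ≤ (u - 2) * h := by
      refine (Finset.sum_le_card_nsmul _ _ h fun x _ => KneserSub_fiber hHs A x).trans ?_
      rw [Finset.card_erase_of_mem hc'', Finset.card_erase_of_mem hc, smul_eq_mul]
      exact Nat.mul_le_mul_right _ (by omega)
    have h2 : (u - 2) * h + 2 * h = u * h := by
      rw [← Nat.add_mul]
      congr 1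
      omega
    omega
  obtain ⟨c1, hc1, c2, hc2, h12⟩ := Finset.one_lt_card.1 (show 1 < u by omega)
  obtain ⟨c0, hc0⟩ : ∃ c, h < 2 * (A.filter (fun a => (QuotientAddGroup.mk a : Γ ⧸ H) = c)).card :=
    by
    by_contra hcon
    push Not at hcon
    have h1 := e5 c1 hc1 c2 hc2 h12
    have h2 := hcon c1
    have h3 := hcon c2
    omega
  -- meeting
  have meet : ∀ (c c' : Γ ⧸ H) (t : Γ), (QuotientAddGroup.mk t : Γ ⧸ H) + c' = c →
      h < (A.filter (fun a => (QuotientAddGroup.mk a : Γ ⧸ H) = c)).card +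
        (A.filter (fun a => (QuotientAddGroup.mk a : Γ ⧸ H) = c')).card → t ∈ A - A := by
    intro c c' t ht hlt
    have h1 : ¬ Disjoint (A.filter (fun a => (QuotientAddGroup.mk a : Γ ⧸ H) = c))
        ((A.filter (fun a => (QuotientAddGroup.mk a : Γ ⧸ H) = c')).image (fun a => t + a)) := by
      intro hd
      have h2 := Finset.card_union_of_disjoint hd
      rw [Finset.card_image_of_injective _ (add_right_injective t)] at h2
      have h3 := KneserSub_class hHs ((A.filter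
        (fun a => (QuotientAddGroup.mk a : Γ ⧸ H) = c)) ∪
        ((A.filter (fun a => (QuotientAddGroup.mk a : Γ ⧸ H) = c')).image (fun a => t + a))) c (by
          intro x hx
          rcases Finset.mem_union.1 hx with hx | hx
          · exact (Finset.mem_filter.1 hx).2
          · obtain ⟨a, ha, rfl⟩ := Finset.mem_image.1 hx
            rw [QuotientAddGroup.mk_add, (Finset.mem_filter.1 ha).2, ht])
      omega
    obtain ⟨x, hx1, hx2⟩ := Finset.not_disjoint_iff.1 h1
    obtain ⟨a, ha, rfl⟩ := Finset.mem_image.1 hx2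
    have h4 : t = (t + a) - a := by abel
    rw [h4]
    exact Finset.sub_mem_sub (Finset.mem_filter.1 hx1).1 (Finset.mem_filter.1 ha).1
  have sat : ∀ x ∈ A - A, ∀ g ∈ H, x + g ∈ A - A := by
    intro z hz g hg
    obtain ⟨x, hx, y, hy, rfl⟩ := Finset.mem_sub.1 hz
    have hg' : (QuotientAddGroup.mk g : Γ ⧸ H) = 0 := (QuotientAddGroup.eq_zero_iff g).2 hg
    by_cases hxy : (QuotientAddGroup.mk x : Γ ⧸ H) = QuotientAddGroup.mk y
    · refine meet c0 c0 _ ?_ (by omega)
      rw [QuotientAddGroup.mk_add, QuotientAddGroup.mk_sub, hxy, sub_self, hg', add_zero,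
        zero_add]
    · refine meet (QuotientAddGroup.mk x) (QuotientAddGroup.mk y) _ ?_ ?_
      · rw [QuotientAddGroup.mk_add, QuotientAddGroup.mk_sub, hg', add_zero, sub_add_cancel]
      · have := e5 _ (Finset.mem_image_of_mem _ hx) _ (Finset.mem_image_of_mem _ hy) hxy
        omega
  have e6 : (A - A).card = ((A - A).image (QuotientAddGroup.mk : Γ → Γ ⧸ H)).card * h :=
    KneserSub_sat hHs (A - A) sat
  refine ⟨H, h, hh1, fun c => KneserSub_fiber hHs A c, hu2, e6, ?_⟩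
  -- the set `A + Hs`
  have e7 := hatom (A + Hs) (hA0.add ⟨0, (hHs 0).2 H.zero_mem⟩) (by
    intro x hx
    obtain ⟨a, ha, k, hk, rfl⟩ := Finset.mem_add.1 hx
    exact AddSubgroup.add_mem _ (hAK a ha) (hHK ((hHs k).1 hk)))
  have e8 : (A + Hs) - A ⊆ A - A := by
    intro x hx
    obtain ⟨y, hy, b, hb, rfl⟩ := Finset.mem_sub.1 hx
    obtain ⟨a, ha, k, hk, rfl⟩ := Finset.mem_add.1 hy
    have : a + k - b = a - b + k := by abel
    rw [this]
    exact sat _ (Finset.sub_mem_sub ha hb) k ((hHs k).1 hk)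
  have e9 : (A + Hs).card + (Hs - A).card ≤ (A + Hs - A).card + h := e7 (by
    obtain ⟨g, hg, hg'⟩ := hK
    exact ⟨g, hg, fun h => hg' (e8 h)⟩)
  have e10 : (A + Hs).card = u * h := by
    rw [KneserSub_sat hHs (A + Hs) (by
      intro x hx g hg
      obtain ⟨a, ha, k, hk, rfl⟩ := Finset.mem_add.1 hx
      rw [add_assoc]
      exact Finset.add_mem_add ha ((hHs _).2 (H.add_mem ((hHs _).1 hk) hg)))]
    congr 2
    ext c
    simp only [Finset.mem_image]
    constructor
    · rintro ⟨x, hx, rfl⟩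
      obtain ⟨a, ha, k, hk, rfl⟩ := Finset.mem_add.1 hx
      refine ⟨a, ha, KneserSub_mk_eq.2 ?_⟩
      have : -a + (a + k) = k := by abel
      rw [this]
      exact (hHs k).1 hk
    · rintro ⟨a, ha, rfl⟩
      exact ⟨a + 0, Finset.add_mem_add ha ((hHs 0).2 H.zero_mem), by rw [add_zero]⟩
  have e11 := Finset.card_le_card e8
  rw [e10, e1] at e9
  rw [e6] at e11
  set v := ((A - A).image (QuotientAddGroup.mk : Γ → Γ ⧸ H)).card
  have e12 : (2 * u) * h ≤ (v + 1) * h := by
    have : (2 * u) * h = u * h + u * h := by ring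
    have h2 : (v + 1) * h = v * h + h := by ring
    omega
  exact Nat.le_of_mul_le_mul_right e12 (by omega)

end Pool.Agent.LargeDist.Sharp
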