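import Pool.Agent.LargeDist.Dim3Final

set_option autoImplicit false

/-! # A progression and an apex at height `√N`

Proof: adapt `le_M_three` (file `Dim3Final.lean`), with `m = 2 q + 1`, `c = q` and the height `1`
replaced by `√N` (`e₂ ↦ √N • e₂`). The distances are the integers `1, …, 2 q` and the numbers
`√(j² + N)`, `j = 0, …, q`. For `u ∈ P` put `v = N / u`, `N = u v`, both odd, `u < v ≤ 2 q`;
`j_u = (v - u) / 2 ≤ q` and `t = (u + v) / 2 ≤ 2 q` are natural numbers and `j_u² + N = t²`, so the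
distance `√(j_u² + N) = t` is already counted. `u ↦ j_u` is injective on `P` (`u < u'` gives
`N / u > N / u'`). So there are at most `2 q + (q + 1) - |P| ≤ k` distances. -/

namespace Pool.Agent.LargeDist.Sharp

open Finset Module

/-- The arithmetic of a factorisation `N = u v` of an odd number: `j = (v - u) / 2` and
`t = (u + v) / 2` satisfy `v = j + t`, `u + j = t` and `j² + N = t²`. -/
private lemma fact_params (q N u : ℕ) (hN : Odd N) (h : u ∣ N ∧ u < N / u ∧ N / u ≤ 2 * q) :
    ∃ v t : ℕ, N = u * v ∧ v = N / u ∧ u + (v - u) / 2 = t ∧ (v - u) / 2 + t = v ∧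
      (v - u) / 2 < q + 1 ∧ 1 ≤ t ∧ t ≤ 2 * q ∧ ((v - u) / 2) ^ 2 + N = t ^ 2 := by
  obtain ⟨⟨v, hv⟩, h2, h3⟩ := h
  have hNpos : 0 < N := hN.pos
  have hu : 0 < u := by
    rcases Nat.eq_zero_or_pos u with rfl | h
    · rw [zero_mul] at hv; omega
    · exact h
  have hdiv : N / u = v := by rw [hv]; exact Nat.mul_div_cancel_left v hu
  rw [hdiv] at h2 h3
  have hodd : Odd u ∧ Odd v := by rw [hv] at hN; exact Nat.odd_mul.1 hN
  obtain ⟨⟨a, ha⟩, ⟨b, hb⟩⟩ := hodd
  have hj : (v - u) / 2 = b - a := by omega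
  refine ⟨v, u + (v - u) / 2, hv, hdiv.symm, rfl, ?_, ?_, ?_, ?_, ?_⟩
  · omega
  · omega
  · omega
  · omega
  · obtain ⟨j, hj'⟩ : ∃ j, b = a + j := ⟨b - a, by omega⟩
    have h4 : (v - u) / 2 = j := by omega
    rw [h4, hv]
    have h5 : v = u + 2 * j := by omega
    rw [h5]
    ring

theorem le_M_three_sharp (q N k : ℕ) (hN : Odd N) (P : Finset ℕ)
    (hP : ∀ u ∈ P, u ∣ N ∧ u < N / u ∧ N / u ≤ 2 * q) (hk : 3 * q + 1 ≤ k + P.card) :
    ((2 * q + 1 : ℕ) : ℕ∞) ≤ M 3 k := by
  classical
  have hNpos : 0 < N := hN.pos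
  have hsq : 0 < Real.sqrt (N : ℝ) := Real.sqrt_pos.2 (by exact_mod_cast hNpos)
  have hsq2 : Real.sqrt (N : ℝ) ^ 2 = (N : ℝ) := Real.sq_sqrt (by positivity)
  let e₁ : EuclideanSpace ℝ (Fin 3) := EuclideanSpace.single 0 1
  let e₂ : EuclideanSpace ℝ (Fin 3) := EuclideanSpace.single 1 1
  let p : ℕ → EuclideanSpace ℝ (Fin 3) := fun i => (i : ℝ) • e₁
  let y : EuclideanSpace ℝ (Fin 3) := (q : ℝ) • e₁ + Real.sqrt (N : ℝ) • e₂
  have hpp : ∀ i j : ℕ, dist (p i) (p j) = |(i : ℝ) - j| := by
    intro i j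
    simp only [p, e₁]
    rw [dist_eq_norm, ← sub_smul, norm_smul, PiLp.norm_single, norm_one, mul_one,
      Real.norm_eq_abs]
  have hpy : ∀ i : ℕ, dist (p i) y = Real.sqrt (((i : ℝ) - q) ^ 2 + N) := by
    intro i
    rw [EuclideanSpace.dist_eq]
    congr 1
    rw [Fin.sum_univ_three]
    simp [p, y, e₁, e₂, Real.dist_eq, sq_abs, hsq2]
  have hinj : Function.Injective p := by
    intro i j hij
    have h1 := hpp i j
    rw [hij, dist_self] at h1
    have h2 := abs_eq_zero.1 h1.symm
    have h3 : (i : ℝ) = j := by linarith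
    exact_mod_cast h3
  set A : Finset (EuclideanSpace ℝ (Fin 3)) := (Finset.range (2 * q + 1)).image p with hA
  have hAcard : A.card = 2 * q + 1 := by
    rw [hA, Finset.card_image_of_injective _ hinj, Finset.card_range]
  have hspan : affineSpan ℝ (A : Set (EuclideanSpace ℝ (Fin 3))) ≤
      (ℝ ∙ e₁ : Submodule ℝ (EuclideanSpace ℝ (Fin 3))).toAffineSubspace := by
    rw [affineSpan_le]
    intro a ha
    obtain ⟨i, -, rfl⟩ := Finset.mem_image.1 (Finset.mem_coe.1 ha)
    exact Submodule.smul_mem _ _ (Submodule.mem_span_singleton_self e₁)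
  have hvs : vectorSpan ℝ (A : Set (EuclideanSpace ℝ (Fin 3))) ≤ (ℝ ∙ e₁) := by
    have := AffineSubspace.direction_le hspan
    rwa [direction_affineSpan, Submodule.toAffineSubspace_direction] at this
  have hy : y ∉ affineSpan ℝ (A : Set (EuclideanSpace ℝ (Fin 3))) := by
    intro hmem
    have h1 : y ∈ (ℝ ∙ e₁ : Submodule ℝ (EuclideanSpace ℝ (Fin 3))) := hspan hmem
    obtain ⟨t, ht⟩ := Submodule.mem_span_singleton.1 h1
    have h2 := congrFun (congrArg (fun v : EuclideanSpace ℝ (Fin 3) => v.ofLp) ht) 1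
    have h3 : (0 : ℝ) = Real.sqrt (N : ℝ) := by simpa [y, e₁, e₂] using h2
    exact absurd h3 hsq.ne
  have hcone : IsConeSet 3 k A := by
    refine ⟨?_, y, hy, ?_⟩
    · have h1 := Submodule.finrank_mono hvs
      have h2 : finrank ℝ (ℝ ∙ e₁ : Submodule ℝ (EuclideanSpace ℝ (Fin 3))) ≤ 1 := by
        refine (finrank_span_le_card ({e₁} : Set (EuclideanSpace ℝ (Fin 3)))).trans ?_
        simp
      omega
    · set J : Finset ℕ := P.image (fun u => (N / u - u) / 2) with hJ
      have hJsub : J ⊆ Finset.range (q + 1) := by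
        intro j hj
        obtain ⟨u, hu, rfl⟩ := Finset.mem_image.1 hj
        obtain ⟨v, t, h1, h2, h3, h4, h5, -⟩ := fact_params q N u hN (hP u hu)
        rw [← h2]
        exact Finset.mem_range.2 h5
      have hJcard : J.card = P.card := by
        rw [hJ]
        apply Finset.card_image_of_injOn
        intro u hu u' hu' huu
        obtain ⟨v, t, h1, h2, h3, h4, h5, h6, h7, h8⟩ := fact_params q N u hN (hP u hu)
        obtain ⟨v', t', h1', h2', h3', h4', h5', h6', h7', h8'⟩ :=
          fact_params q N u' hN (hP u' hu')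
        simp only at huu
        rw [← h2, ← h2'] at huu
        rw [← huu, h8] at h8'
        have h9 : t = t' := Nat.pow_left_injective (by norm_num) h8'
        omega
      have hJdist : ∀ j ∈ J, Real.sqrt ((j : ℝ) ^ 2 + N) ∈
          (Finset.Icc 1 (2 * q)).image (fun j : ℕ => (j : ℝ)) := by
        intro j hj
        obtain ⟨u, hu, rfl⟩ := Finset.mem_image.1 hj
        obtain ⟨v, t, h1, h2, h3, h4, h5, h6, h7, h8⟩ := fact_params q N u hN (hP u hu)
        simp only [← h2]
        refine Finset.mem_image.2 ⟨t, Finset.mem_Icc.2 ⟨h6, h7⟩, ?_⟩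
        have h9 : ((((v - u) / 2 : ℕ) : ℝ)) ^ 2 + N = (t : ℝ) ^ 2 := by exact_mod_cast h8
        rw [h9, Real.sqrt_sq (by positivity)]
      have hsub : dists (insert y A) ⊆ (Finset.Icc 1 (2 * q)).image (fun j : ℕ => (j : ℝ)) ∪
          (Finset.range (q + 1) \ J).image
            (fun j : ℕ => Real.sqrt ((j : ℝ) ^ 2 + N)) := by
        have hmix : ∀ a ∈ A, dist a y ∈ (Finset.Icc 1 (2 * q)).image (fun j : ℕ => (j : ℝ)) ∪
            (Finset.range (q + 1) \ J).image
              (fun j : ℕ => Real.sqrt ((j : ℝ) ^ 2 + N)) := by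
          intro a ha
          obtain ⟨i, hi, rfl⟩ := Finset.mem_image.1 ha
          rw [Finset.mem_range] at hi
          obtain ⟨j, hj, hij⟩ : ∃ j : ℕ, j < q + 1 ∧ ((i : ℝ) - q) ^ 2 = (j : ℝ) ^ 2 := by
            rcases Nat.le_total i q with h | h
            · refine ⟨q - i, by omega, ?_⟩
              rw [Nat.cast_sub h]; ring
            · refine ⟨i - q, by omega, ?_⟩
              rw [Nat.cast_sub h]
          rw [hpy, hij, Finset.mem_union]
          by_cases hjJ : j ∈ J
          · exact Or.inl (hJdist j hjJ)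
          · exact Or.inr (Finset.mem_image.2 ⟨j, Finset.mem_sdiff.2
              ⟨Finset.mem_range.2 hj, hjJ⟩, rfl⟩)
        intro t ht
        obtain ⟨x, hx, z, hz, hxz, rfl⟩ := mem_dists.1 ht
        rw [Finset.mem_insert] at hx hz
        rcases hx with hx | hx <;> rcases hz with hz | hz
        · exact absurd (hx.trans hz.symm) hxz
        · rw [hx, dist_comm]; exact hmix z hz
        · rw [hz]; exact hmix x hx
        · rw [Finset.mem_union]
          left
          obtain ⟨i, hi, rfl⟩ := Finset.mem_image.1 hx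
          obtain ⟨j, hj, rfl⟩ := Finset.mem_image.1 hz
          rw [Finset.mem_range] at hi hj
          have hij : i ≠ j := fun h => hxz (congrArg p h)
          rw [hpp, Finset.mem_image]
          rcases Nat.lt_or_gt_of_ne hij with hlt | hgt
          · refine ⟨j - i, Finset.mem_Icc.2 (by omega), ?_⟩
            rw [Nat.cast_sub hlt.le, abs_of_neg]
            · ring
            · have : (i : ℝ) < j := by exact_mod_cast hlt
              linarith
          · refine ⟨i - j, Finset.mem_Icc.2 (by omega), ?_⟩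
            rw [Nat.cast_sub hgt.le, abs_of_pos]
            have : (j : ℝ) < i := by exact_mod_cast hgt
            linarith
      have h1 := Finset.card_le_card hsub
      have h2 := Finset.card_union_le ((Finset.Icc 1 (2 * q)).image (fun j : ℕ => (j : ℝ)))
        ((Finset.range (q + 1) \ J).image (fun j : ℕ => Real.sqrt ((j : ℝ) ^ 2 + N)))
      have h3 : ((Finset.Icc 1 (2 * q)).image (fun j : ℕ => (j : ℝ))).card ≤ 2 * q :=
        Finset.card_image_le.trans (by rw [Nat.card_Icc]; omega)
      have h4 : ((Finset.range (q + 1) \ J).image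
          (fun j : ℕ => Real.sqrt ((j : ℝ) ^ 2 + N))).card ≤ q + 1 - P.card := by
        refine Finset.card_image_le.trans ?_
        rw [Finset.card_sdiff_of_subset hJsub, Finset.card_range, hJcard]
      have h5 : P.card ≤ q + 1 := by
        have := Finset.card_le_card hJsub
        rwa [Finset.card_range, hJcard] at this
      omega
  have h5 : ((2 * q + 1 : ℕ) : ℕ∞) = (A.card : ℕ∞) := by rw [hAcard]
  rw [h5]
  unfold M
  exact le_iSup (fun A : {A : Finset (EuclideanSpace ℝ (Fin 3)) // IsConeSet 3 k A} =>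
    (A.1.card : ℕ∞)) ⟨A, hcone⟩

end Pool.Agent.LargeDist.Sharp
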