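import Mathlib

set_option autoImplicit false

/-! # Many balanced factorisations

Proof. Choose a set `S` of `2 s` odd primes `≤ x` (there are at least `π(x) - 1 ≥ 2 s` of them),
`N = ∏ S` (odd, squarefree). For `T ⊆ S` with `|T| = s` let `u_T = ∏ T ≤ x ^ s ≤ m`; then
`N / u_T = u_{S \ T} ≤ m`. `T ↦ u_T` is injective (the prime factors of `u_T` are the elements of `T`)
and `u_T ≠ u_{S \ T}` (`s ≥ 1`, so `T ≠ S \ T`). Exactly one of `u_T < u_{S \ T}`, `u_{S \ T} < u_T`
holds, so `P = {u_T : |T| = s, u_T < u_{S \ T}}` has `2 |P| = C(2 s, s)`, and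
`4 ^ s ≤ 2 s C(2 s, s)` (`Nat.four_pow_le_two_mul_self_mul_centralBinom`). -/

namespace Pool.Agent.LargeDist.Sharp

theorem exists_balanced (x s m : ℕ) (hs : 1 ≤ s) (hx : x ^ s ≤ m)
    (hpi : 2 * s + 1 ≤ Nat.primeCounting x) :
    ∃ (N : ℕ) (P : Finset ℕ), Odd N ∧ (∀ u ∈ P, u ∣ N ∧ u < N / u ∧ N / u ≤ m) ∧
      4 ^ s ≤ 4 * s * P.card := by
  classical
  -- the primes
  obtain ⟨S, hScard, hSp⟩ : ∃ S : Finset ℕ, S.card = 2 * s ∧
      ∀ p ∈ S, p.Prime ∧ p ≠ 2 ∧ p ≤ x := by
    have h1 : (((Finset.range (x + 1)).filter Nat.Prime)).card = Nat.primeCounting x := by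
      rw [Nat.primeCounting, Nat.primeCounting', Nat.count_eq_card_filter_range]
    have h2 : 2 * s ≤ (((Finset.range (x + 1)).filter Nat.Prime).erase 2).card := by
      have := Finset.pred_card_le_card_erase (s := (Finset.range (x + 1)).filter Nat.Prime) (a := 2)
      omega
    obtain ⟨S, hS, hcard⟩ := Finset.exists_subset_card_eq h2
    refine ⟨S, hcard, fun p hp => ?_⟩
    have h3 := Finset.mem_erase.1 (hS hp)
    have h4 := Finset.mem_filter.1 h3.2
    exact ⟨h4.2, h3.1, Nat.lt_succ_iff.1 (Finset.mem_range.1 h4.1)⟩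
  let u : Finset ℕ → ℕ := fun T => ∏ p ∈ T, p
  have hu_pf : ∀ T ⊆ S, (u T).primeFactors = T := fun T hT =>
    Nat.primeFactors_prod fun p hp => (hSp p (hT hp)).1
  have hu_inj : ∀ T ⊆ S, ∀ T' ⊆ S, u T = u T' → T = T' := by
    intro T hT T' hT' h
    rw [← hu_pf T hT, h, hu_pf T' hT']
  have hu_pos : ∀ T ⊆ S, 0 < u T := fun T hT =>
    Finset.prod_pos fun p hp => (hSp p (hT hp)).1.pos
  have hu_mul : ∀ T ⊆ S, u (S \ T) * u T = u S := fun T hT => Finset.prod_sdiff hT
  have hu_le : ∀ T ⊆ S, T.card = s → u T ≤ m := by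
    intro T hT hc
    refine le_trans ?_ hx
    rw [← hc]
    exact Finset.prod_le_pow_card T _ x fun p hp => (hSp p (hT hp)).2.2
  have hodd : Odd (u S) := by
    refine Finset.prod_induction _ Odd (fun a b ha hb => ha.mul hb) odd_one fun p hp => ?_
    exact (hSp p hp).1.odd_of_ne_two (hSp p hp).2.1
  have hdiff : ∀ T ⊆ S, T.card = s → (S \ T).card = s := by
    intro T hT hc
    rw [Finset.card_sdiff_of_subset hT, hScard, hc]
    omega
  have hne : ∀ T ⊆ S, T.card = s → u T ≠ u (S \ T) := by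
    intro T hT hc h
    have h1 := hu_inj T hT (S \ T) Finset.sdiff_subset h
    have h2 : T.Nonempty := Finset.card_pos.1 (by omega)
    obtain ⟨p, hp⟩ := h2
    have h3 : p ∈ S \ T := h1 ▸ hp
    exact (Finset.mem_sdiff.1 h3).2 hp
  let Q := (S.powersetCard s).filter fun T => u T < u (S \ T)
  let Q' := (S.powersetCard s).filter fun T => ¬ u T < u (S \ T)
  have hQQ' : Q.card = Q'.card := by
    refine Finset.card_bij' (fun T _ => S \ T) (fun T _ => S \ T) ?_ ?_ ?_ ?_
    · intro T hT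
      obtain ⟨hT1, hT2⟩ := Finset.mem_filter.1 hT
      obtain ⟨hT3, hT4⟩ := Finset.mem_powersetCard.1 hT1
      refine Finset.mem_filter.2 ⟨Finset.mem_powersetCard.2 ⟨Finset.sdiff_subset,
        hdiff T hT3 hT4⟩, ?_⟩
      rw [Finset.sdiff_sdiff_eq_self hT3]
      exact not_lt.2 hT2.le
    · intro T hT
      obtain ⟨hT1, hT2⟩ := Finset.mem_filter.1 hT
      obtain ⟨hT3, hT4⟩ := Finset.mem_powersetCard.1 hT1
      refine Finset.mem_filter.2 ⟨Finset.mem_powersetCard.2 ⟨Finset.sdiff_subset,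
        hdiff T hT3 hT4⟩, ?_⟩
      rw [Finset.sdiff_sdiff_eq_self hT3]
      exact lt_of_le_of_ne (not_lt.1 hT2) (hne T hT3 hT4).symm
    · intro T hT
      exact Finset.sdiff_sdiff_eq_self
        (Finset.mem_powersetCard.1 (Finset.mem_filter.1 hT).1).1
    · intro T hT
      exact Finset.sdiff_sdiff_eq_self
        (Finset.mem_powersetCard.1 (Finset.mem_filter.1 hT).1).1
  have hsum : Q.card + Q'.card = Nat.centralBinom s := by
    rw [Finset.card_filter_add_card_filter_not, Finset.card_powersetCard, hScard,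
      Nat.centralBinom]
  refine ⟨u S, Q.image u, hodd, ?_, ?_⟩
  · intro v hv
    obtain ⟨T, hT, rfl⟩ := Finset.mem_image.1 hv
    obtain ⟨hT1, hT2⟩ := Finset.mem_filter.1 hT
    obtain ⟨hT3, hT4⟩ := Finset.mem_powersetCard.1 hT1
    have h1 := hu_mul T hT3
    have h2 : u S / u T = u (S \ T) := by
      rw [← h1]
      exact Nat.mul_div_cancel _ (hu_pos T hT3)
    rw [h2]
    exact ⟨⟨u (S \ T), by rw [← h1, mul_comm]⟩, hT2,
      hu_le _ Finset.sdiff_subset (hdiff T hT3 hT4)⟩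
  · have h1 : (Q.image u).card = Q.card := by
      refine Finset.card_image_of_injOn fun T hT T' hT' h => ?_
      exact hu_inj T (Finset.mem_powersetCard.1 (Finset.mem_filter.1 hT).1).1 T'
        (Finset.mem_powersetCard.1 (Finset.mem_filter.1 hT').1).1 h
    have h2 := Nat.four_pow_le_two_mul_self_mul_centralBinom s (by omega)
    rw [h1]
    have h3 : Nat.centralBinom s = 2 * Q.card := by omega
    rw [h3] at h2
    calc 4 ^ s ≤ 2 * s * (2 * Q.card) := h2
      _ = 4 * s * Q.card := by ring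

end Pool.Agent.LargeDist.Sharp
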