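import Pool.Agent.LargeDist.Sharp.DivParam

set_option autoImplicit false

/-! # Wigert's upper bound for the number of divisors

Proof. Take `y = L / (log L)³`, `L = log N`, in `divisors_param`. As `L → ∞`:
`y log (3 L) = L (log 3 + log L) / (log L)³ = o(L / log L)`, and
`log y = log L - 3 log log L`, so `L / log y = (1 + o(1)) L / log L`. It is convenient to prove that
`(y log (3 L) + log 2 * L / log y) * (log L) / L → log 2` as `L → ∞` (Filter.Tendsto, with
`Real.isLittleO_log_id_atTop` etc. in the variable `x = log L`: the expression is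
`(log 3 + x) / x² + log 2 * x / (x - 3 log x)`), and then to transport along
`N ↦ log N → ∞`. -/

namespace Pool.Agent.LargeDist.Sharp

open Filter Topology

private theorem tendsto_log_div : Tendsto (fun x : ℝ => Real.log x / x) atTop (𝓝 0) := by
  have := Real.isLittleO_log_id_atTop.tendsto_div_nhds_zero
  exact this

private theorem tendsto_one : Tendsto (fun x : ℝ => (Real.log 3 + x) / x ^ 2) atTop (𝓝 0) := by
  have h1 : Tendsto (fun x : ℝ => Real.log 3 * (x⁻¹ * x⁻¹) + x⁻¹) atTop
      (𝓝 (Real.log 3 * (0 * 0) + 0)) :=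
    ((tendsto_inv_atTop_zero.mul tendsto_inv_atTop_zero).const_mul _).add tendsto_inv_atTop_zero
  rw [mul_zero, mul_zero, add_zero] at h1
  refine h1.congr' ?_
  filter_upwards [eventually_gt_atTop (0 : ℝ)] with x hx
  field_simp

private theorem tendsto_two : Tendsto (fun x : ℝ => x / (x - 3 * Real.log x)) atTop (𝓝 1) := by
  have h1 : Tendsto (fun x : ℝ => (1 - 3 * (Real.log x / x))⁻¹) atTop (𝓝 (1 - 3 * 0)⁻¹) :=
    ((tendsto_log_div.const_mul 3).const_sub 1).inv₀ (by norm_num)
  rw [mul_zero, sub_zero, inv_one] at h1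
  refine h1.congr' ?_
  filter_upwards [eventually_gt_atTop (0 : ℝ)] with x hx
  have h2 : 1 - 3 * (Real.log x / x) = (x - 3 * Real.log x) / x := by
    field_simp
  rw [h2, inv_div]

private theorem eventually_sub : ∀ᶠ x : ℝ in atTop, 0 < x - 3 * Real.log x := by
  have h := tendsto_log_div.eventually (gt_mem_nhds (show (0 : ℝ) < 1 / 6 by norm_num))
  filter_upwards [h, eventually_gt_atTop (0 : ℝ)] with x hx hx0
  rw [div_lt_iff₀ hx0] at hx
  linarith

private theorem tendsto_tot : Tendsto (fun x : ℝ => (Real.log 3 + x) / x ^ 2 +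
    Real.log 2 * (x / (x - 3 * Real.log x))) atTop (𝓝 (Real.log 2)) := by
  have := tendsto_one.add (tendsto_two.const_mul (Real.log 2))
  rwa [zero_add, mul_one] at this

theorem wigert {ε : ℝ} (hε : 0 < ε) : ∃ N₀ : ℕ, ∀ N : ℕ, N₀ ≤ N →
    (N.divisors.card : ℝ) ≤
      Real.exp ((Real.log 2 + ε) * Real.log N / Real.log (Real.log N)) := by
  have h1 : ∀ᶠ x : ℝ in atTop, 0 < x ∧ 0 < x - 3 * Real.log x ∧
      (Real.log 3 + x) / x ^ 2 + Real.log 2 * (x / (x - 3 * Real.log x)) ≤ Real.log 2 + ε := by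
    filter_upwards [eventually_gt_atTop (0 : ℝ), eventually_sub,
      tendsto_tot.eventually (ge_mem_nhds (show Real.log 2 < Real.log 2 + ε by linarith))] with
      x h1 h2 h3
    exact ⟨h1, h2, h3⟩
  have h2 : Tendsto (fun N : ℕ => Real.log (Real.log (N : ℝ))) atTop atTop :=
    Real.tendsto_log_atTop.comp (Real.tendsto_log_atTop.comp tendsto_natCast_atTop_atTop)
  have h3 : Tendsto (fun N : ℕ => Real.log (N : ℝ)) atTop atTop :=
    Real.tendsto_log_atTop.comp tendsto_natCast_atTop_atTop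
  obtain ⟨N₀, hN₀⟩ := eventually_atTop.mp ((h2.eventually h1).and
    (h3.eventually (eventually_ge_atTop (1 : ℝ))))
  refine ⟨N₀, fun N hN => ?_⟩
  obtain ⟨⟨hx, hy, hle⟩, hL⟩ := hN₀ N hN
  obtain ⟨L, hLdef⟩ : ∃ L : ℝ, L = Real.log (N : ℝ) := ⟨_, rfl⟩
  rw [← hLdef] at hx hy hle hL ⊢
  obtain ⟨x, hxdef⟩ : ∃ x : ℝ, x = Real.log L := ⟨_, rfl⟩
  rw [← hxdef] at hx hy hle ⊢
  have hL0 : 0 < L := by linarith
  have hy0 : 0 < L / x ^ 3 := by positivity
  have hlogy : Real.log (L / x ^ 3) = x - 3 * Real.log x := by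
    rw [Real.log_div hL0.ne' (by positivity), ← hxdef, Real.log_pow]
    norm_num
  have hy1 : 1 < L / x ^ 3 := by
    by_contra hcon
    have := Real.log_nonpos hy0.le (not_lt.mp hcon)
    rw [hlogy] at this
    linarith
  refine (divisors_param N (by rw [← hLdef]; exact hL) (L / x ^ 3) hy1).trans ?_
  rw [Real.exp_le_exp, ← hLdef, hlogy, Real.log_mul (by norm_num) hL0.ne', ← hxdef]
  have h4 : L / x ^ 3 * (Real.log 3 + x) + Real.log 2 * L / (x - 3 * Real.log x) =
      (L / x) * ((Real.log 3 + x) / x ^ 2 + Real.log 2 * (x / (x - 3 * Real.log x))) := by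
    field_simp
  have h5 : (Real.log 2 + ε) * L / x = (L / x) * (Real.log 2 + ε) := by ring
  rw [h4, h5]
  exact mul_le_mul_of_nonneg_left hle (by positivity)

end Pool.Agent.LargeDist.Sharp
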